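import Mathlib
import Pool.Agent.Run7.h757.CR.App
import Pool.Agent.W468.ConjFDefs

/-!
# Project CRQ (helper285): all quadratic polynomials at the optimal scale

Extension of the piece E of project CR (`Run7/h285/E3*.lean`, `|n² + a|` for almost all pairs `(a, m)`) to the
polynomials `f(n) = a n² + b n + c` with an ARBITRARY leading coefficient `1 ≤ a ≤ X^(1 - ρ)`, in EVERY window
`(m, m + H]` with `H ≥ T log X`, for almost all pairs `(b, c)`, `b` in an interval of length `M ≥ X^(1/3) log^B X`,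
`|c| ≤ X`. Host: MP_7169d5_nt, slot 4. `L` stands for `log X`, `z = ⌊L^E⌋`, `w = ⌊L^(1/u)⌋`, `s` is a sign. `ff z`: the primes
minus `lamz z` divided by the logarithm (`TH892/SW/S5.lean`), `fz w z`: the difference of two sieve models (`TH892/OW/B3.lean`).
Constants may be changed freely inside the proofs.
-/

set_option autoImplicit false

namespace Run7.h285.Q

open Finset Filter Topology
open Pool.Agent.TH892.SW (ff wt)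
open Pool.Agent.TH892.OW (fz)
open Pool.Agent.H373R2.T7 (lamz Vz)
open Pool.Agent.W468.ConjF (CF)

/-- the quadratic polynomial -/
def qv (a b c : ℤ) (n : ℕ) : ℤ := a * (n : ℤ) ^ 2 + b * n + c

/-- the second moment over the pairs `(b, c)` -/
noncomputable def Q2 (g : ℤ → ℝ) (s a b₀ : ℤ) (X M m H : ℕ) : ℝ :=
  ∑ c ∈ Icc (-(X : ℤ)) X, ∑ b ∈ Ioc b₀ (b₀ + M), (∑ n ∈ Ioc m (m + H), g (s * qv a b c n)) ^ 2

/-- all positive values lie in the interval `[u, v]` of length `≤ 7 X` -/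
def Blk (s a b₀ : ℤ) (X M m H : ℕ) (u v : ℤ) : Prop := 1 ≤ u ∧ u ≤ v ∧ v - u ≤ 7 * X ∧
  ∀ c ∈ Icc (-(X : ℤ)) X, ∀ b ∈ Ioc b₀ (b₀ + M), ∀ n ∈ Ioc m (m + H),
    s * qv a b c n ≤ 0 ∨ s * qv a b c n ∈ Icc u v

/-- no prime divides all the values -/
def Loc (a b c : ℤ) : Prop :=
  (∀ p : ℕ, p.Prime → (p : ℤ) ∣ a → (p : ℤ) ∣ b → ¬ (p : ℤ) ∣ c) ∧ ¬ ((2 : ℤ) ∣ a + b ∧ (2 : ℤ) ∣ c)

/-- the number of the `n` in the window for which `|a n² + b n + c|` is a prime -/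
def P (a b c : ℤ) (m H : ℕ) : ℕ := #((Ioc m (m + H)).filter (fun n : ℕ => (qv a b c n).natAbs.Prime))

/-- the sum of `1 / log |a n² + b n + c|` over the window -/
noncomputable def W (a b c : ℤ) (m H : ℕ) : ℝ := ∑ n ∈ Ioc m (m + H), wt (qv a b c n).natAbs

/-- **Q0** (model: `Run7/h285/E0.lean`, the case `a = 1`, there with `2 d` in the place of `d`). Proof. Replace `g` by `gJ`
(`0` outside `J = [u, v]`), extend the sum over `c` to all integers. For `i < j` in the window, `d = j - i`, `A_n = a n² + b₀ n`,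
`b = b₀ + t`: the arguments are `k = s (c + A_i + t i)` and `k + s (A_j - A_i) + s t d`, and `d | A_j - A_i`. For `s = 1` put
`c' = k + A_j - A_i`, for `s = -1` replace `t` by `M + 1 - t` and put `c' = k - (A_j - A_i) - d (M + 1)`: the sum is
`∑_{c'} gJ(c' + d r) ∑_{t ≤ M} gJ(c' + d t)` with an integer `r`. If all `c' + d t` are in `J` the `c'` contribute `≤ R`, the other
`≤ 2 d M` values of `c'` at most `M G0²` each. The diagonal is `H M ∑_J g²`. -/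
def S_Q0 : Prop := ∀ (g : ℤ → ℝ) (G0 R : ℝ) (s a b₀ : ℤ) (X M m H : ℕ) (u v : ℤ), (∀ k, k ≤ 0 → g k = 0) →
  (∀ k, |g k| ≤ G0) → (s = 1 ∨ s = -1) → 0 ≤ R → Blk s a b₀ X M m H u v →
  (∀ d ∈ Icc 1 H, ∀ r : ℤ,
    ∑ c ∈ (Icc (u - d) (v - d * M)).filter (fun c => c + d * r ∈ Icc u v),
      |g (c + d * r)| * |∑ t ∈ Icc (1 : ℤ) M, g (c + d * t)| ≤ R) →
  Q2 g s a b₀ X M m H ≤ H * M * (∑ k ∈ Icc u v, g k ^ 2) + 8 * (H : ℝ) ^ 3 * (M : ℝ) ^ 2 * G0 ^ 2 + (H : ℝ) ^ 2 * R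

/-- **QB1** (one block, from Q0 and APM; model: `Run7/h545/CR/E1.lean`, theorem `blk'`). Only two changes: the modulus is `q = d`
instead of `2 d`, and `M ≤ √X` is replaced by `M ≤ X^(1 - δ)`: `8 H³ M² (3L)² ≤ X M / L^(U + 1)` still holds for `X` large in terms
of `δ`, and `M L^B ≤ X`. `∑_J ff² ≤ K₀ X / (2L)` for an interval `J` of length `≤ 7 X` (`primes_int`, `wt_sum`, `ff_sq`). -/
def S_QB1 : Prop := ∃ K₀ : ℝ, 1 ≤ K₀ ∧ ∀ (δ : ℝ) (U C D : ℕ), 0 < δ → ∃ E1 : ℕ, ∀ E : ℕ, E1 ≤ E → ∃ B X₀ : ℕ,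
  ∀ X : ℕ, X₀ ≤ X → ∀ (s a b₀ u v : ℤ) (M m H : ℕ), (s = 1 ∨ s = -1) → 1 ≤ H → (H : ℝ) ≤ Real.log X ^ D →
  (X : ℝ) ^ (1 / 3 : ℝ) * Real.log X ^ B ≤ M → (M : ℝ) ≤ (X : ℝ) ^ (1 - δ) → Blk s a b₀ X M m H u v →
  (v : ℝ) ≤ X * Real.log X ^ C →
  Q2 (ff ⌊Real.log X ^ E⌋₊) s a b₀ X M m H ≤ X * M * (K₀ * H / Real.log X + (H : ℝ) ^ 2 / Real.log X ^ U)

/-- **QB2** (one block, from Q0; model: `Run7/h285/E2b.lean` with `E2a.lean`; the modulus is `q = d` instead of `2 d`). -/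
def S_QB2 : Prop := ∀ (δ : ℝ) (D E u₀ : ℕ), 0 < δ → 1 ≤ E → 1 ≤ u₀ → ∃ X₀ : ℕ,
  ∀ X : ℕ, X₀ ≤ X → ∀ (s a b₀ u v : ℤ) (M m H : ℕ), (s = 1 ∨ s = -1) → 1 ≤ H → (H : ℝ) ≤ Real.log X ^ D →
  (X : ℝ) ^ (1 / 3 : ℝ) ≤ M → (M : ℝ) ≤ (X : ℝ) ^ (1 - δ) → Blk s a b₀ X M m H u v →
  Q2 (fz ⌊Real.log X ^ (1 / (u₀ : ℝ))⌋₊ ⌊Real.log X ^ E⌋₊) s a b₀ X M m H ≤
    X * M * (H * √(Real.log X) + (H : ℝ) ^ 2 / Real.log (Real.log X) ^ 2)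

/-- **Q1** (from QB1). Proof. Blocks of `b` of length `M'` between `P` and `2 P`, `P = ⌊X / (4 (m + H))⌋`, if `M > 2 P` (as
`M2_blocks` in `Run7/h285/Blk.lean`); `P ≥ X^(1/3) L^B + 1` as `(m + H)² ≤ X L^C`; `M' ≤ M ≤ (a X L^C)^(1/2) ≤ X^(1 - ρ/3)`. In a block
`(b₁, b₁ + M']` with `n = m + i`: `f(n) = V₀ + c + i (a (2m + i) + b₁) + t n`, `V₀ = a m² + b₁ m`, `|i (a (2 m + i) + b₁)| ≤
3 H (a X L^C)^(1/2) ≤ X / 2` (this uses `a ≤ X^(1 - ρ)`) and `0 ≤ t n ≤ X / 2`. So `Blk` holds with `u = max 1 (s V₀ - 2 X)`,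
`v = max 1 (s V₀ + 2 X)`, and `v ≤ X L^(C + 1)`. -/
def S_Q1 : Prop := ∃ K₀ : ℝ, 1 ≤ K₀ ∧ ∀ (ρ : ℝ) (U C D : ℕ), 0 < ρ → ∃ E1 : ℕ, ∀ E : ℕ, E1 ≤ E → ∃ B X₀ : ℕ,
  ∀ X : ℕ, X₀ ≤ X → ∀ (s b₀ : ℤ) (a M m H : ℕ), (s = 1 ∨ s = -1) → 1 ≤ a → (a : ℝ) ≤ (X : ℝ) ^ (1 - ρ) →
  1 ≤ H → (H : ℝ) ≤ Real.log X ^ D → (X : ℝ) ^ (1 / 3 : ℝ) * Real.log X ^ B ≤ M →
  (|(b₀ : ℝ)| + M) ^ 2 ≤ a * X * Real.log X ^ C → (a : ℝ) * (m + H) ^ 2 ≤ X * Real.log X ^ C →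
  Q2 (ff ⌊Real.log X ^ E⌋₊) s a b₀ X M m H ≤ X * M * (K₀ * H / Real.log X + (H : ℝ) ^ 2 / Real.log X ^ U)

/-- **Q2S** (from QB2, in the same way) -/
def S_Q2 : Prop := ∀ (ρ : ℝ) (C D E u₀ : ℕ), 0 < ρ → 1 ≤ E → 1 ≤ u₀ → ∃ X₀ : ℕ,
  ∀ X : ℕ, X₀ ≤ X → ∀ (s b₀ : ℤ) (a M m H : ℕ), (s = 1 ∨ s = -1) → 1 ≤ a → (a : ℝ) ≤ (X : ℝ) ^ (1 - ρ) →
  1 ≤ H → (H : ℝ) ≤ Real.log X ^ D → (X : ℝ) ^ (1 / 3 : ℝ) ≤ M →
  (|(b₀ : ℝ)| + M) ^ 2 ≤ a * X * Real.log X ^ C → (a : ℝ) * (m + H) ^ 2 ≤ X * Real.log X ^ C →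
  Q2 (fz ⌊Real.log X ^ (1 / (u₀ : ℝ))⌋₊ ⌊Real.log X ^ E⌋₊) s a b₀ X M m H ≤
    X * M * (H * √(Real.log X) + (H : ℝ) ^ 2 / Real.log (Real.log X) ^ 2)

/-- **FLQ** (fundamental lemma; model: `SW.flq` in `TH892/SW/S3.lean` and `Run7.h285.E3.fl` in `E3a.lean`). Proof.
`Pool.Agent.TH892.SW.fl_set 2` (`SW/S2.lean`) with `R p x := p | a (m + x)² + b (m + x) + c`: the number of residues is `nr a b' c' p ≤ 2`
(lemmas `nr_odd`, `nr_lin`, `nr_none`, `nr_two` in `W468/ConjFDefs.lean`; here `Loc` is used; shifting by `m` changes neither the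
number of roots nor `CF`), `∏_{p ≤ w} (1 - nr p / p) = Vz w * (2 * CF a b c w)` (as in the proof of `euler_eq`, which does not use
that the discriminant is not a square), and this product is at least `1 / w³` (as `prod_rk_ge`). `C1 = 4 C0 + 7` as in `flq`. -/
def S_FLQ : Prop := ∃ C1 y0 : ℕ, 1 ≤ C1 ∧ 2 ≤ y0 ∧ ∀ k : ℕ, C1 ≤ k → ∀ w : ℕ, y0 ≤ w → ∀ H : ℕ, w ^ (C1 * k) ≤ H →
  ∀ (a b c : ℤ) (m : ℕ), 0 < a → Loc a b c →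
  |∑ n ∈ Ioc m (m + H), lamz w (qv a b c n).natAbs - H * (2 * CF a b c w)| ≤
    2 * (1 / 2 : ℝ) ^ k * (2 * CF a b c w) * H

/-- **HGQ** (the constant; model: `Run7/h437/CR/HTG.lean`). Proof. Fix `b` first. `D = b² - 4 a c`.
* From `Z = ⌊L^E⌋` on: `Pool.Agent.R460.SC.tail_both 1 one_ne_zero 0 ρ'` with `X' = 4 a X + b²` (`≤ a X L^(C+1)`), modulus
  `q = 4 a ≤ X'^(1/2 - ρ')` (as `a ≤ X^(1 - ρ)`), class of `-b²`: for `c' = -D = 4 a c - b²`, `|c'| ≤ X'`, all but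
  `2 X' / (q (log X')^U) + 1 ≤ η X / 8` of the `c` satisfy: `-4 c' = 4 D` is not a square and `|SJ (4 D) Z N| = |SJ D Z N|` is small for
  large `N`. `CF_compare a b c` (`TH892/CF2.lean`) with `z = Z`: `LOW a D Z Z = 0`, `3 log₂ a / Z` is small.
* Between `w` and `Z`, `p ∤ a`: `CFLow.second_moment` / `low_count` with `α = b²`, `β = -4 a`, `P` = the odd primes in `(w, Z]` not
  dividing `a` (`c` over `range`, for both signs of `c`; `Z² ≤ X / L`): for all but `(2 X / w + 2 Z²) / τ²` of the `c` the sum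
  `LOW a D w Z` is at most `τ`. The same with a large constant `w0` in the place of `w` for the lower bound `δ0`.
* `p | gcd(a, b)`, `p > w`: the factor `∏ p / (p - 1)` differs from `1` by little for all but few `b`:
  `∑_{b} ∑_{p | a, p | b, p > w} 1 / (p - 1) ≤ ∑_{p > w, p | a} (M / p + 1) / (p - 1) ≤ 2 M / w + log₂ a`.
* `CF a b c w0 ≥ (1/2) ∏_{3 ≤ p ≤ w0} (1 - 1 / (p - 1))`, which depends on `w0` only: `δ0`.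
Existence of the limit: `CF_tendsto`; `CF_limit` in `TH892` (used in `HP_lim`, `OW/B7.lean`) turns the logarithmic bounds into the last
inequality. -/
def S_HGQ : Prop := ∀ η : ℝ, 0 < η → ∃ δ0 : ℝ, 0 < δ0 ∧ ∀ ε1 : ℝ, 0 < ε1 → ∀ u₀ : ℕ, 1 ≤ u₀ →
  ∀ (ρ : ℝ) (C : ℕ), 0 < ρ → ∃ X₀ : ℕ, ∀ X : ℕ, X₀ ≤ X → ∀ (b₀ : ℤ) (a M : ℕ), 1 ≤ a → (a : ℝ) ≤ (X : ℝ) ^ (1 - ρ) →
  (X : ℝ) ^ (1 / 3 : ℝ) ≤ M → (|(b₀ : ℝ)| + M) ^ 2 ≤ a * X * Real.log X ^ C →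
  ∃ Bad : Finset (ℤ × ℤ), (#Bad : ℝ) ≤ η * (X * M) ∧
    ∀ c ∈ Icc (-(X : ℤ)) X, ∀ b ∈ Ioc b₀ (b₀ + M), (c, b) ∉ Bad →
      ¬ IsSquare (b ^ 2 - 4 * a * c) ∧ ∃ h : ℝ, δ0 ≤ h ∧ Tendsto (fun N : ℕ => CF a b c N) atTop (𝓝 h) ∧
        |CF a b c ⌊Real.log X ^ (1 / (u₀ : ℝ))⌋₊ - h| ≤ ε1 * h

/-- **EQ** (the hand-in; from Q1, Q2, FLQ, HGQ; model: `Run7/h285/E3{a,b,c}.lean`) -/
def S_EQ : Prop := ∀ ε : ℝ, 0 < ε → ∃ T : ℝ, 0 < T ∧ ∀ (ρ : ℝ) (C : ℕ), 0 < ρ → ∃ B X₀ : ℕ, ∀ X : ℕ, X₀ ≤ X →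
  ∀ (b₀ : ℤ) (a M m H : ℕ), 1 ≤ a → (a : ℝ) ≤ (X : ℝ) ^ (1 - ρ) → (X : ℝ) ^ (1 / 3 : ℝ) * Real.log X ^ B ≤ M →
  (|(b₀ : ℝ)| + M) ^ 2 ≤ a * X * Real.log X ^ C → T * Real.log X ≤ H → (a : ℝ) * (m + H) ^ 2 ≤ X * Real.log X ^ C →
  ∃ Bad ⊆ Icc (-(X : ℤ)) X ×ˢ Ioc b₀ (b₀ + M), (#Bad : ℝ) ≤ ε * (X * M) ∧
    ∀ c ∈ Icc (-(X : ℤ)) X, ∀ b ∈ Ioc b₀ (b₀ + M), (c, b) ∉ Bad → Loc a b c →
      ¬ IsSquare (b ^ 2 - 4 * a * c) ∧ ∃ h : ℝ, 0 < h ∧ Tendsto (fun N : ℕ => CF a b c N) atTop (𝓝 h) ∧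
        |(P a b c m H : ℝ) - 2 * h * W a b c m H| ≤ ε * (2 * h * W a b c m H)

end Run7.h285.Q
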