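import Pool.Agent.Run7.h285.Q.EQMb

/-!
# Project CRQ: all scales at once, assembly
-/

set_option autoImplicit false

namespace Run7.h285.Q

open Finset Filter Topology
open Pool.Agent.H373R2.T7 (pz Vz lamz mem_pz Vz_ge Vz_inv_le Vz_le_one Vz_inv_small)
open Pool.Agent.TH892.SW (ff ffn wt wt_nonneg wt_le)
open Pool.Agent.TH892.OW (fz lz evt_ll)
open Run7.h285.E3 (wt_close)
open Run7.h285.X (scal scal_ge scal_lt all_scales max_abs)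
open Pool.Agent.W468.ConjF (CF)
open Pool.Agent.H442R2.EHI (evt_log_pow evt_log_ge)

/-- the sizes of `w`, `z` and of the length `HD` -/
lemma cuts (l : ℝ) (u E y0 D : ℕ) (hl : 10000 ≤ l) (hu : 1 ≤ u) (hE : 1 ≤ E) (hy0 : 2 ≤ y0) (hD : D = E * u)
    (hlu : (y0 : ℝ) + 1 ≤ l ^ (1 / (u : ℝ))) :
    2 ≤ ⌊l ^ (1 / (u : ℝ))⌋₊ ∧ 2 ≤ ⌊l ^ E⌋₊ ∧ y0 ≤ ⌊l ^ (1 / (u : ℝ))⌋₊ ∧ y0 ≤ ⌊l ^ E⌋₊ ∧
    ((⌊l ^ (1 / (u : ℝ))⌋₊ ^ u : ℕ) : ℝ) ≤ l ∧ l ≤ ((⌊l ^ E⌋₊ ^ u + ⌈l⌉₊ : ℕ) : ℝ) ∧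
    ((⌊l ^ E⌋₊ ^ u + ⌈l⌉₊ : ℕ) : ℝ) ≤ l ^ (D + 1) := by
  have hl0 : 0 < l := by linarith
  have hl1 : 1 ≤ l := by linarith
  have hur : (0 : ℝ) < u := by exact_mod_cast hu
  obtain ⟨w, hw⟩ : ∃ w, w = ⌊l ^ (1 / (u : ℝ))⌋₊ := ⟨_, rfl⟩
  obtain ⟨z, hz⟩ : ∃ z, z = ⌊l ^ E⌋₊ := ⟨_, rfl⟩
  rw [← hw, ← hz]
  have hwl : (w : ℝ) ≤ l ^ (1 / (u : ℝ)) := by rw [hw]; exact Nat.floor_le (by positivity)
  have hwy : y0 ≤ w := by
    have h4 := Nat.lt_floor_add_one (l ^ (1 / (u : ℝ)))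
    rw [← hw] at h4
    have h5 : (y0 : ℝ) < w := by linarith
    exact_mod_cast h5.le
  have hzl : (z : ℝ) ≤ l ^ E := by rw [hz]; exact Nat.floor_le (by positivity)
  have hlE : l ≤ l ^ E := le_self_pow₀ hl1 (by omega)
  have hwz : w ≤ z := by
    have h4 : l ^ (1 / (u : ℝ)) ≤ l := by
      calc l ^ (1 / (u : ℝ)) ≤ l ^ (1 : ℝ) := by
            apply Real.rpow_le_rpow_of_exponent_le hl1
            rw [div_le_one hur]; exact_mod_cast hu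
        _ = l := Real.rpow_one l
    rw [hw, hz]
    exact Nat.floor_le_floor (h4.trans hlE)
  have hzu : (z : ℝ) ^ u ≤ l ^ D := by
    rw [hD, pow_mul l E u]
    exact pow_le_pow_left₀ (Nat.cast_nonneg _) hzl _
  have hD1 : D ≠ 0 := by rw [hD]; exact Nat.mul_ne_zero (by omega) (by omega)
  have hlD : l ≤ l ^ D := le_self_pow₀ hl1 hD1
  refine ⟨by omega, by omega, hwy, by omega, ?_, ?_, ?_⟩
  · push_cast
    calc (w : ℝ) ^ u ≤ (l ^ (1 / (u : ℝ))) ^ u := pow_le_pow_left₀ (Nat.cast_nonneg _) hwl u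
      _ = l := by
          rw [← Real.rpow_natCast, ← Real.rpow_mul hl0.le, one_div, inv_mul_cancel₀ hur.ne', Real.rpow_one]
  · push_cast
    have := Nat.le_ceil l
    have h5 : (0 : ℝ) ≤ (z : ℝ) ^ u := by positivity
    linarith
  · push_cast
    have h5 := (Nat.ceil_lt_add_one hl0.le).le
    have h6 : l ^ (D + 1) = l ^ D * l := by ring
    rw [h6]
    nlinarith

/-- the lengths -/
lemma len_le (a m X H C : ℕ) (l : ℝ) (ha : 1 ≤ a) (hX : l ^ (C + 1) ≤ X)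
    (h : (a : ℝ) * (m + H) ^ 2 ≤ X * l ^ (C + 1)) : (H : ℝ) ≤ X := by
  have hX0 : (0 : ℝ) ≤ X := Nat.cast_nonneg _
  have ha0 : (1 : ℝ) ≤ a := by exact_mod_cast ha
  have h4 : (H : ℝ) ^ 2 ≤ (X : ℝ) ^ 2 := by
    have h5 : (H : ℝ) ^ 2 ≤ a * (m + H) ^ 2 := by
      have h6 : (H : ℝ) ^ 2 ≤ ((m : ℝ) + H) ^ 2 := pow_le_pow_left₀ (Nat.cast_nonneg _) (by
        have : (0 : ℝ) ≤ m := Nat.cast_nonneg _
        linarith) 2
      have h7 : 1 * ((m : ℝ) + H) ^ 2 ≤ a * ((m : ℝ) + H) ^ 2 := mul_le_mul_of_nonneg_right ha0 (sq_nonneg _)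
      linarith
    have h6 : (X : ℝ) * l ^ (C + 1) ≤ X * X := mul_le_mul_of_nonneg_left hX hX0
    rw [sq (X : ℝ)]
    linarith
  exact le_of_sq_le_sq h4 hX0

lemma len_two (a m X H G C : ℕ) (l : ℝ) (hl : 4 ≤ l) (hG : G ≤ 2 * H)
    (h : (a : ℝ) * (m + H) ^ 2 ≤ X * l ^ C) : (a : ℝ) * (m + G) ^ 2 ≤ X * l ^ (C + 1) := by
  have h4 : (G : ℝ) ≤ 2 * H := by exact_mod_cast hG
  have h5 : (a : ℝ) * (m + G) ^ 2 ≤ a * (2 * (m + H)) ^ 2 := by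
    have hm0 : (0 : ℝ) ≤ m := Nat.cast_nonneg _
    gcongr
    linarith
  refine h5.trans ?_
  have hl0 : 0 ≤ l := by linarith
  have e : (a : ℝ) * (2 * (m + H)) ^ 2 = 4 * (a * (m + H) ^ 2) := by ring
  rw [e]
  have h6 : 0 ≤ (X : ℝ) * l ^ C := by positivity
  calc 4 * ((a : ℝ) * (m + H) ^ 2) ≤ 4 * (X * l ^ C) := by linarith
    _ ≤ l * (X * l ^ C) := mul_le_mul_of_nonneg_right (by linarith) h6
    _ = _ := by ring

/-- the fundamental lemma with nonnegative constant -/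
lemma fl_use (S V x y : ℝ) (G : ℕ) (hG : 1 ≤ G) (hx : 0 < x) (hxy : x ≤ y) (h : |S - G * V| ≤ x * V * G) :
    |S - G * V| ≤ y * V * G := by
  have hG0 : (0 : ℝ) < G := by exact_mod_cast hG
  have hV : 0 ≤ V := by
    have h5 := le_trans (abs_nonneg _) h
    by_contra hcon
    push Not at hcon
    have h7 : x * V < 0 := mul_neg_of_pos_of_neg hx hcon
    have : x * V * G < 0 := mul_neg_of_neg_of_pos h7 hG0
    linarith
  refine h.trans ?_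
  apply mul_le_mul_of_nonneg_right _ hG0.le
  exact mul_le_mul_of_nonneg_right hxy hV

lemma card_filter_mem {α : Type*} (S B : Finset α) {_ : DecidablePred (fun p => p ∈ B)} :
    (#(S.filter (fun p => p ∈ B)) : ℝ) ≤ #B := by
  apply Nat.cast_le.2
  apply card_le_card
  intro p hp
  exact (mem_filter.1 hp).2

open Classical in
theorem eqm (h1 : S_Q1) (h2 : S_Q2) (hf : S_FLQ) (h3 : S_HGQ) : S_EQM := by
  intro ε₀ hε₀
  obtain ⟨ε, hεd⟩ : ∃ ε, ε = min ε₀ 1 := ⟨_, rfl⟩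
  have hε : 0 < ε := by rw [hεd]; exact lt_min hε₀ one_pos
  have hεl : ε ≤ 1 := by rw [hεd]; exact min_le_right _ _
  have hεe : ε ≤ ε₀ := by rw [hεd]; exact min_le_left _ _
  clear hεd
  obtain ⟨ε₁, hε₁⟩ : ∃ ε₁, ε₁ = ε / 2400 := ⟨_, rfl⟩
  have he0 : 0 < ε₁ := by rw [hε₁]; positivity
  obtain ⟨δ0, hδ0, hHG⟩ := h3 (ε / 4) (by positivity)
  obtain ⟨C1, y0, hC1, hy0, hfl⟩ := hf
  obtain ⟨b, hb1, hb2⟩ : ∃ b : ℕ, C1 ≤ b ∧ 2 * (1 / 2 : ℝ) ^ b ≤ ε₁ := by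
    obtain ⟨n, hn⟩ := exists_pow_lt_of_lt_one (show (0 : ℝ) < ε₁ / 2 by positivity) (show (1 / 2 : ℝ) < 1 by norm_num)
    refine ⟨C1 + n, by omega, ?_⟩
    have h4 : (1 / 2 : ℝ) ^ (C1 + n) ≤ (1 / 2 : ℝ) ^ n := pow_le_pow_of_le_one (by norm_num) (by norm_num) (by omega)
    linarith
  obtain ⟨u, hu⟩ : ∃ u, u = C1 * b := ⟨_, rfl⟩
  have hu1 : 1 ≤ u := by rw [hu]; exact Nat.mul_pos (by omega) (by omega)
  have hfl := fun (w : ℕ) (hw : y0 ≤ w) (H : ℕ) (hH : w ^ (C1 * b) ≤ H) => hfl b hb1 w hw H hH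
  rw [← hu] at hfl
  obtain ⟨K₀, hK₀, hff⟩ := mom_ffM h1
  obtain ⟨lam, hlam⟩ : ∃ lam, lam = 1 + ε / 10 := ⟨_, rfl⟩
  have hlam1 : 1 < lam := by rw [hlam]; have : 0 < ε / 10 := by positivity
                             linarith
  have hloglam : 0 < Real.log lam := Real.log_pos hlam1
  obtain ⟨e, he⟩ : ∃ e, e = ε₁ * δ0 := ⟨_, rfl⟩
  have hep : 0 < e := by rw [he]; positivity
  obtain ⟨Kf, hKf⟩ : ∃ Kf, Kf = 8 / e ^ 2 * K₀ := ⟨_, rfl⟩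
  have hKf0 : 0 < Kf := by rw [hKf]; positivity
  obtain ⟨Kz, hKz⟩ : ∃ Kz, Kz = 8 / e ^ 2 := ⟨_, rfl⟩
  have hKz0 : 0 < Kz := by rw [hKz]; positivity
  obtain ⟨T, hT⟩ : ∃ T, T = Kf * (8 * (lam / (lam - 1))) / ε + 1 := ⟨_, rfl⟩
  have hlr : 0 < lam / (lam - 1) := div_pos (by linarith) (by linarith)
  have hT1 : 1 ≤ T := by
    rw [hT]
    have : 0 ≤ Kf * (8 * (lam / (lam - 1))) / ε := by positivity
    linarith
  have hTK : Kf * (1 / T * (lam / (lam - 1))) ≤ ε / 8 := by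
    have hT0 : 0 < T := by linarith
    have e' : Kf * (1 / T * (lam / (lam - 1))) = Kf * (lam / (lam - 1)) / T := by ring
    rw [e', div_le_iff₀ hT0]
    have h4 : ε / 8 * T = Kf * (lam / (lam - 1)) + ε / 8 := by rw [hT]; field_simp
    rw [h4]
    have : 0 < ε / 8 := by positivity
    linarith
  clear hT
  refine ⟨2 * T, by linarith, fun ρ C hρ => ?_⟩
  obtain ⟨Xg, hXg⟩ := hHG ε₁ he0 u hu1 ρ C hρ
  obtain ⟨E1, hff⟩ := hff ρ (C + 1) hρ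
  obtain ⟨E, hE⟩ : ∃ E, E = E1 + 1 := ⟨_, rfl⟩
  obtain ⟨B, Xa, hff⟩ := hff E (by omega)
  obtain ⟨D, hD⟩ : ∃ D, D = E * u := ⟨_, rfl⟩
  obtain ⟨Xb, hfz⟩ := mom_fzM h2 ρ (C + 1) (D + 1) E u hρ (by omega) hu1
  obtain ⟨Xc, hVz⟩ := Run7.h285.E2.Vz_sqrt E (by omega)
  obtain ⟨Xd, hwc⟩ := wt_close (C + 2) ε₁ he0
  obtain ⟨LJ, hLJ⟩ : ∃ LJ, LJ = 1 / Real.log lam + 1 := ⟨_, rfl⟩
  have hLJ0 : 0 < LJ := by rw [hLJ]; positivity
  obtain ⟨KD, hKD⟩ : ∃ KD, KD = ((D + 1 : ℕ) : ℝ) / Real.log lam + 1 := ⟨_, rfl⟩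
  have hKD0 : 0 < KD := by rw [hKD]; positivity
  have hev : ∀ᶠ X : ℕ in atTop, (10000 + 10 / ε + 3 / (ε₁ * δ0) + 3 / ε₁ + 16 * (LJ * (Kf + 3)) / ε : ℝ) ≤ Real.log X ∧
      ((y0 : ℝ) + 1) * Real.log (Real.log X) ^ 0 ≤ Real.log X ^ (1 / (u : ℝ)) ∧
      Real.log X ^ (C + 7) ≤ (X : ℝ) ^ (1 : ℝ) ∧
      1 * Real.log (Real.log X) ^ 4 ≤ Real.log X ^ (1 : ℝ) ∧
      Real.exp (64 * ((KD + 1) * Kz) / ε + 2) ≤ Real.log X := by
    filter_upwards [evt_log_ge _, evt_ll 0 (1 / (u : ℝ)) (y0 + 1) (by positivity),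
      evt_log_pow (C + 7) 1 (by norm_num), evt_ll 4 1 1 (by norm_num), evt_log_ge _] with X a1 a2 a3 a4 a5
    exact ⟨a1, a2, a3, a4, a5⟩
  obtain ⟨Xe, hXe⟩ := eventually_atTop.1 hev
  refine ⟨B, Xg + Xa + Xb + Xc + Xd + Xe, fun X hX b₀ a M m ha haX hM hbX => ?_⟩
  have hff := hff X (by omega) b₀ a M m
  have hVz := hVz X (by omega)
  have hwc := hwc X (by omega)
  obtain ⟨hl, hlu, hlX, hl4, hle⟩ := hXe X (by omega)
  have p0 : 0 < 10 / ε := by positivity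
  have p2 : 0 < 3 / (ε₁ * δ0) := by positivity
  have p3 : 0 < 3 / ε₁ := by positivity
  have p4 : 0 < 16 * (LJ * (Kf + 3)) / ε := by positivity
  have g0 : 10000 ≤ Real.log X := by linarith
  have g1 : 10 / ε ≤ Real.log X := by linarith
  have g2 : 3 / (ε₁ * δ0) ≤ Real.log X := by linarith
  have g3 : 3 / ε₁ ≤ Real.log X := by linarith
  have g4 : 16 * (LJ * (Kf + 3)) / ε ≤ Real.log X := by linarith
  clear hl p0 p2 p3 p4
  have hl1' : 1 ≤ Real.log X := by linarith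
  have hM3 : (X : ℝ) ^ (1 / 3 : ℝ) ≤ M := by
    refine le_trans ?_ hM
    exact le_mul_of_one_le_right (by positivity) (one_le_pow₀ hl1')
  have hfz := hfz X (by omega) b₀ a M m
  have hbX' : (|(b₀ : ℝ)| + M) ^ 2 ≤ a * X * Real.log X ^ (C + 1) := by
    refine hbX.trans ?_
    apply mul_le_mul_of_nonneg_left _ (by positivity)
    exact pow_le_pow_right₀ hl1' (by omega)
  have hff := fun H hH1 hH2 s hs => hff H ha haX hM hbX' hH1 hH2 s hs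
  have hfz := fun H hH1 hH2 hH3 s hs => hfz H ha haX hM3 hbX' hH1 hH2 hH3 s hs
  obtain ⟨BadG, hBadG, hgood⟩ := hXg X (by omega) b₀ a M ha haX hM3 hbX
  clear hXg hXe hev h1 h2 h3 hHG
  rw [pow_zero, mul_one] at hlu
  rw [Real.rpow_one] at hlX
  rw [Real.rpow_one, one_mul] at hl4
  have hXp : 1 ≤ X := by
    rcases Nat.eq_zero_or_pos X with h | h
    · rw [h] at hl1'; norm_num at hl1'
    · exact h
  have hX1 : (1 : ℝ) ≤ X := by exact_mod_cast hXp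
  have hM0 : (0 : ℝ) < M := by
    have : 0 < (X : ℝ) ^ (1 / 3 : ℝ) := Real.rpow_pos_of_pos (by linarith) _
    linarith
  clear hM hM3 haX hbX
  generalize hll : Real.log (X : ℝ) = l at *
  obtain ⟨hw2, hz2, hwy, hzy, hwu, hHDl, hHDu⟩ := cuts l u E y0 D g0 hu1 (by omega) hy0 hD hlu
  obtain ⟨w, hw⟩ : ∃ w, w = ⌊l ^ (1 / (u : ℝ))⌋₊ := ⟨_, rfl⟩
  obtain ⟨z, hz⟩ : ∃ z, z = ⌊l ^ E⌋₊ := ⟨_, rfl⟩
  rw [← hz] at hff hfz hVz hz2 hzy hHDl hHDu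
  rw [← hw] at hfz hgood hw2 hwy hwu
  clear hw hz hlu
  have hl0 : 0 < l := by linarith
  obtain ⟨k, hk⟩ : ∃ k, k = Real.log l := ⟨_, rfl⟩
  rw [← hk] at hfz hl4
  have hk1 : 64 * ((KD + 1) * Kz) / ε + 2 ≤ k := by
    rw [hk, Real.le_log_iff_exp_le hl0]; exact hle
  have hk0 : 0 < 64 * ((KD + 1) * Kz) / ε := by positivity
  obtain ⟨HD, hHD⟩ : ∃ HD : ℕ, HD = z ^ u + ⌈l⌉₊ := ⟨_, rfl⟩
  rw [← hHD] at hHDl hHDu
  have huHD : z ^ u ≤ HD := by omega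
  have hXM : 0 < (X : ℝ) * M := by positivity
  have hC1X : l ^ (C + 1) ≤ X := (pow_le_pow_right₀ hl1' (by omega)).trans hlX
  have h6X : l ^ 6 ≤ X := (pow_le_pow_right₀ hl1' (by omega)).trans hlX
  obtain ⟨Al, hAl⟩ : ∃ Al : ℕ → Prop, Al = fun H : ℕ => (a : ℝ) * (m + H) ^ 2 ≤ X * l ^ (C + 1) := ⟨_, rfl⟩
  have hAlX : ∀ H : ℕ, Al H → (H : ℝ) ≤ X := by
    intro H hH
    rw [hAl] at hH
    exact len_le a m X H C l ha hC1X hH
  have hAlm : ∀ H H' : ℕ, H ≤ H' → Al H' → Al H := by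
    intro H H' h hH
    rw [hAl] at hH ⊢
    refine le_trans ?_ hH
    have : (H : ℝ) ≤ H' := by exact_mod_cast h
    gcongr
  obtain ⟨Bad, hBadS, hBadc, hBadg⟩ := max_abs (Icc (-(X : ℤ)) X ×ˢ Ioc b₀ (b₀ + M)) (fun p => p ∈ BadG)
    (bad1 a m z l e ((X : ℝ) / l ^ 6)) (bad2 a m w z e) Al ((X : ℝ) * M) l l k ε T lam Kf Kz LJ KD X (D + 1) HD hXM hl1'
    le_rfl hk (by linarith) hε hT1 hlam1 hKf0 hKz0 hLJ hKD hTK hll hAlX g4 (by linarith) hl4 hHDl hHDu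
    ((card_filter_mem _ _).trans hBadG)
    (by
      intro G hG hA
      rw [hAl] at hA
      have h4 := count1 a b₀ X M m z G l e (K₀ * (l / G + 1 / l ^ 2)) hl1' (by linarith) hep hM0 h6X
        (fun s hs => hff G hG hA s hs)
      refine h4.trans (le_of_eq ?_)
      rw [hKf]
      ring)
    (by
      intro G hG hGD hA
      rw [hAl] at hA
      have h4 := count2 a b₀ X M m w z G e (1 / √l + 1 / k ^ 2) (by linarith) hep
        (fun s hs => hfz G hG hGD hA s hs)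
      refine h4.trans (le_of_eq ?_)
      rw [hKz])
  clear hff hfz hBadG hKf hKz hLJ hKD hTK hl4 hle hk1 hk0 hk h6X hC1X
  refine ⟨Bad, hBadS, hBadc.trans (mul_le_mul_of_nonneg_right hεe hXM.le), ?_⟩
  intro c hc b' hb' hbad hloc
  obtain ⟨q0, q1, q2, q3⟩ := hBadg (c, b') (mem_product.2 ⟨hc, hb'⟩) hbad
  clear hBadg hBadc hBadS
  obtain ⟨hsq, h, hδh, hlim, hhw⟩ := hgood c hc b' hb' q0
  have hh0 : 0 < h := by linarith
  refine ⟨hsq, h, hh0, hlim, fun H hTH hHA => ?_⟩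
  have hWt : 0 ≤ 2 * h * W a b' c m H := by
    have hWt : 0 ≤ W a b' c m H := by
      unfold W
      exact sum_nonneg fun _ _ => wt_nonneg _
    positivity
  refine le_trans ?_ (mul_le_mul_of_nonneg_right hεe hWt)
  have hb0 : 0 < 2 * (1 / 2 : ℝ) ^ b := by positivity
  refine pair_all w z (z ^ u) (D + 1) hw2 hz2 a b' c m HD l h δ0 ε₁ ((X : ℝ) / l ^ 6) (2 * CF a b' c w) (2 * CF a b' c z) ε lam T
    g0 hε₁ hε hεl hh0 hδ0 (by linarith) hlam hT1 g1 hHDl Al ?_ g2 g3 ?_ ?_ ?_ ?_ ?_ huHD hHDu ?_ hAlm ?_ H hTH ?_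
  · have h4 : √l ≤ l := by rw [Real.sqrt_le_left hl0.le]; nlinarith
    have h5 := inv_pos.2 (Pool.Agent.TH892.OW.Vz_pos z)
    linarith
  · intro j hj
    have h4 := q1 j hj
    rw [bad1] at h4
    push Not at h4
    obtain ⟨⟨k1, k2⟩, k3⟩ := h4
    rw [← he]
    exact ⟨⟨k1, k2⟩, k3⟩
  · intro G hG n hn hκ
    rw [hAl] at hG
    refine hwc _ hκ ((val_le a M m G X b₀ b' c (l ^ (C + 1)) (one_le_pow₀ hl1') hbX' hG hb' hc n hn).trans ?_)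
    have h10 : (X : ℝ) * l ^ (C + 2) = l * (X * l ^ (C + 1)) := by ring
    rw [h10]
    exact mul_le_mul_of_nonneg_right (by linarith) (by positivity)
  · have e' : 2 * CF a b' c w - 2 * h = 2 * (CF a b' c w - h) := by ring
    rw [e', abs_mul, abs_of_pos (by norm_num : (0 : ℝ) < 2)]
    linarith
  · intro G hG
    have hwG : w ^ u ≤ G := by
      have : ((w ^ u : ℕ) : ℝ) ≤ G := hwu.trans hG
      exact_mod_cast this
    have hG0 : (0 : ℝ) < G := by linarith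
    exact fl_use _ _ _ _ G (by exact_mod_cast hG0) hb0 hb2 (hfl w hwy G hwG a b' c m (by exact_mod_cast ha) hloc)
  · intro G hG1 hG
    exact fl_use _ _ _ _ G hG1 hb0 hb2 (hfl z hzy G hG a b' c m (by exact_mod_cast ha) hloc)
  · intro j hj hjD
    have h4 := q2 j hj hjD
    rw [bad2] at h4
    push Not at h4
    rw [← he]
    exact h4
  · intro hA
    have h4 := q3 hA
    rw [bad2] at h4
    push Not at h4
    rw [← he]
    exact h4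
  · intro G hG
    rw [hAl]
    exact len_two a m X H G C l (by linarith) hG hHA

end Run7.h285.Q
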