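import Pool.Agent.Run7.h285.E0
import Pool.Agent.Run7.h285.Q.Stm

/-!
# Piece Q0 of the project CRQ: the second moment over pairs `(b, c)` and sums over progressions
-/

set_option autoImplicit false

namespace Run7.h285.Q

open Finset
open Run7.h285.E0 (gJ gJ_of gJ_not gJ_abs asum)

lemma bsum1 (F : ℤ → ℝ) (b₀ : ℤ) (M : ℕ) :
    ∑ b ∈ Ioc b₀ (b₀ + M), F b = ∑ t ∈ Icc (1 : ℤ) M, F (b₀ + t) := by
  refine sum_bij' (fun m _ => m - b₀) (fun t _ => b₀ + t) ?_ ?_ ?_ ?_ ?_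
  · intro m hm; rw [mem_Ioc] at hm; rw [mem_Icc]; omega
  · intro t ht; rw [mem_Icc] at ht; rw [mem_Ioc]; omega
  · intro m hm; rw [mem_Ioc] at hm; omega
  · intro t ht; rw [mem_Icc] at ht; omega
  · intro m hm; congr 1; omega

lemma bsum2 (F : ℤ → ℝ) (b₀ : ℤ) (M : ℕ) :
    ∑ b ∈ Ioc b₀ (b₀ + M), F b = ∑ t ∈ Icc (1 : ℤ) M, F (b₀ + M + 1 - t) := by
  refine sum_bij' (fun m _ => b₀ + M + 1 - m) (fun t _ => b₀ + M + 1 - t) ?_ ?_ ?_ ?_ ?_
  · intro m hm; rw [mem_Ioc] at hm; rw [mem_Icc]; omega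
  · intro t ht; rw [mem_Icc] at ht; rw [mem_Ioc]; omega
  · intro m hm; rw [mem_Ioc] at hm; omega
  · intro t ht; rw [mem_Icc] at ht; omega
  · intro m hm; congr 1; omega

/-- the core estimate -/
lemma core (g : ℤ → ℝ) (G0 R : ℝ) (M : ℕ) (u v : ℤ) (d : ℕ) (r : ℤ)
    (hG : ∀ k, |g k| ≤ G0)
    (hR : ∑ c ∈ (Icc (u - d) (v - d * M)).filter (fun c => c + d * r ∈ Icc u v),
      |g (c + d * r)| * |∑ t ∈ Icc (1 : ℤ) M, g (c + d * t)| ≤ R) :
    |∑ k ∈ Icc u v, g k * ∑ t ∈ Icc (1 : ℤ) M, gJ g u v (k - d * r + d * t)| ≤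
      R + 2 * d * (M : ℝ) ^ 2 * G0 ^ 2 := by
  have hG0 : 0 ≤ G0 := (abs_nonneg _).trans (hG 0)
  set f : ℤ → ℝ := fun k => |g k| * |∑ t ∈ Icc (1 : ℤ) M, gJ g u v (k - d * r + d * t)| with hf
  have hf0 : ∀ k, 0 ≤ f k := fun k => mul_nonneg (abs_nonneg _) (abs_nonneg _)
  have h1 : |∑ k ∈ Icc u v, g k * ∑ t ∈ Icc (1 : ℤ) M, gJ g u v (k - d * r + d * t)| ≤ ∑ k ∈ Icc u v, f k := by
    refine (abs_sum_le_sum_abs _ _).trans (le_of_eq ?_)
    exact sum_congr rfl fun k _ => abs_mul _ _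
  refine h1.trans ?_
  rw [← sum_filter_add_sum_filter_not (Icc u v) (fun k => k - d * r ∈ Icc (u - d) (v - d * M))]
  apply add_le_add
  · refine le_trans (le_of_eq ?_) hR
    refine sum_bij' (fun k _ => k - d * r) (fun c _ => c + d * r) ?_ ?_ ?_ ?_ ?_
    · intro k hk
      rw [mem_filter] at hk ⊢
      refine ⟨hk.2, ?_⟩
      rw [sub_add_cancel]; exact hk.1
    · intro c hc
      rw [mem_filter] at hc ⊢
      refine ⟨hc.2, ?_⟩
      rw [add_sub_cancel_right]; exact hc.1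
    · intro k _; ring
    · intro c _; ring
    · intro k hk
      rw [mem_filter, mem_Icc] at hk
      have hk2 := mem_Icc.1 hk.2
      rw [hf]
      simp only
      rw [sub_add_cancel]
      congr 2
      refine sum_congr rfl fun t ht => ?_
      apply gJ_of
      rw [mem_Icc] at ht ⊢
      have hd : (0 : ℤ) ≤ d := by positivity
      have h3 : (d : ℤ) * 1 ≤ d * t := mul_le_mul_of_nonneg_left ht.1 hd
      have h4 : (d : ℤ) * t ≤ d * M := mul_le_mul_of_nonneg_left ht.2 hd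
      constructor <;> linarith [hk2.1, hk2.2]
  · -- the boundary
    set B : Finset ℤ := (Ico (u - d * M) (u - d)).image (fun c => c + d * r) ∪
      (Ioc (v - d * M) (v - d)).image (fun c => c + d * r) with hB
    have hcard : (#B : ℝ) ≤ 2 * d * M := by
      have h2 : #B ≤ d * M + d * M := by
        refine (card_union_le _ _).trans ?_
        apply add_le_add
        · refine card_image_le.trans ?_
          rw [Int.card_Ico]
          have : (u - (d : ℤ) - (u - d * M)) ≤ ((d * M : ℕ) : ℤ) := by push_cast; linarith [(by positivity : (0 : ℤ) ≤ d)]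
          omega
        · refine card_image_le.trans ?_
          rw [Int.card_Ioc]
          have : (v - (d : ℤ) - (v - d * M)) ≤ ((d * M : ℕ) : ℤ) := by push_cast; linarith [(by positivity : (0 : ℤ) ≤ d)]
          omega
      have h3 : (#B : ℝ) ≤ ((d * M + d * M : ℕ) : ℝ) := by exact_mod_cast h2
      refine h3.trans (le_of_eq ?_)
      push_cast; ring
    have hfk : ∀ k, f k ≤ G0 * (M * G0) := by
      intro k
      apply mul_le_mul (hG k) _ (abs_nonneg _) hG0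
      refine (abs_sum_le_sum_abs _ _).trans ((sum_le_sum fun t _ => gJ_abs g G0 hG u v _).trans ?_)
      rw [sum_const, nsmul_eq_mul, Int.card_Icc]
      apply le_of_eq
      congr 2
      omega
    have hz : ∀ k ∈ (Icc u v).filter (fun k => ¬ k - d * r ∈ Icc (u - d) (v - d * M)), k ∉ B → f k = 0 := by
      intro k hk hkB
      rw [mem_filter] at hk
      have hk2 := hk.2
      rw [hf]
      simp only
      rw [sum_eq_zero, abs_zero, mul_zero]
      intro t ht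
      apply gJ_not
      intro hc
      apply hkB
      rw [mem_Icc] at ht hc
      have hd : (0 : ℤ) ≤ d := by positivity
      have h3 : (d : ℤ) * 1 ≤ d * t := mul_le_mul_of_nonneg_left ht.1 hd
      have h4 : (d : ℤ) * t ≤ d * M := mul_le_mul_of_nonneg_left ht.2 hd
      rw [hB, mem_union, mem_image, mem_image]
      by_cases h5 : k - d * r < u - d
      · left
        refine ⟨k - d * r, ?_, by ring⟩
        rw [mem_Ico]; constructor <;> linarith [hc.1]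
      · right
        refine ⟨k - d * r, ?_, by ring⟩
        rw [mem_Ioc]
        constructor
        · by_contra h6
          apply hk2
          rw [mem_Icc]; constructor <;> linarith
        · linarith [hc.2]
    calc ∑ k ∈ (Icc u v).filter (fun k => ¬ k - d * r ∈ Icc (u - d) (v - d * M)), f k
        ≤ ∑ k ∈ B, f k := by
          rw [← sum_filter_add_sum_filter_not _ (fun k => k ∈ B)]
          rw [sum_eq_zero (s := ((Icc u v).filter (fun k => ¬ k - d * r ∈ Icc (u - d) (v - d * M))).filter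
            (fun k => ¬ k ∈ B)) (fun k hk => hz k (mem_filter.1 hk).1 (mem_filter.1 hk).2), add_zero]
          apply sum_le_sum_of_subset_of_nonneg
          · intro k hk; exact (mem_filter.1 hk).2
          · intro k _ _; exact hf0 k
      _ ≤ ∑ _k ∈ B, G0 * (M * G0) := sum_le_sum fun k _ => hfk k
      _ = #B * (G0 * (M * G0)) := by rw [sum_const, nsmul_eq_mul]
      _ ≤ 2 * d * M * (G0 * (M * G0)) := mul_le_mul_of_nonneg_right hcard (by positivity)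
      _ = 2 * d * (M : ℝ) ^ 2 * G0 ^ 2 := by ring

/-- the sum of the products over `b` and `c` -/
noncomputable def SS (g : ℤ → ℝ) (u v s a : ℤ) (A : Finset ℤ) (b₀ : ℤ) (M i j : ℕ) : ℝ :=
  ∑ b ∈ Ioc b₀ (b₀ + M), ∑ c ∈ A, gJ g u v (s * ((a * (i : ℤ) ^ 2 + b * i) + c)) *
    gJ g u v (s * ((a * (j : ℤ) ^ 2 + b * j) + c))

lemma SS_comm (g : ℤ → ℝ) (u v s a : ℤ) (A : Finset ℤ) (b₀ : ℤ) (M i j : ℕ) :
    SS g u v s a A b₀ M i j = SS g u v s a A b₀ M j i := by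
  unfold SS
  exact sum_congr rfl fun m _ => sum_congr rfl fun a _ => mul_comm _ _

lemma SS_eq (g : ℤ → ℝ) (u v s : ℤ) (hs : s = 1 ∨ s = -1) (a : ℤ) (A : Finset ℤ) (b₀ : ℤ) (M i j : ℕ)
    (hA : ∀ b ∈ Ioc b₀ (b₀ + M), ∀ k ∈ Icc u v, s * k - (a * (i : ℤ) ^ 2 + b * i) ∈ A) :
    SS g u v s a A b₀ M i j =
      ∑ k ∈ Icc u v, g k * ∑ b ∈ Ioc b₀ (b₀ + M),
        gJ g u v (k + s * ((a * (j : ℤ) ^ 2 + b * j) - (a * (i : ℤ) ^ 2 + b * i))) := by
  unfold SS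
  rw [sum_congr rfl fun m hm => asum g u v s _ _ hs A (hA m hm), sum_comm]
  exact sum_congr rfl fun k _ => (mul_sum _ _ _).symm

lemma card_b (b₀ : ℤ) (M : ℕ) : #(Ioc b₀ (b₀ + M)) = M := by
  rw [Int.card_Ioc]; omega

lemma SS_diag (g : ℤ → ℝ) (u v s : ℤ) (hs : s = 1 ∨ s = -1) (a : ℤ) (A : Finset ℤ) (b₀ : ℤ) (M i : ℕ)
    (hA : ∀ b ∈ Ioc b₀ (b₀ + M), ∀ k ∈ Icc u v, s * k - (a * (i : ℤ) ^ 2 + b * i) ∈ A) :
    SS g u v s a A b₀ M i i = M * ∑ k ∈ Icc u v, g k ^ 2 := by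
  rw [SS_eq g u v s hs a A b₀ M i i hA, mul_sum]
  refine sum_congr rfl fun k hk => ?_
  simp only [sub_self, mul_zero, add_zero]
  rw [gJ_of g hk, sum_const, nsmul_eq_mul, card_b]
  ring

lemma SS_off (g : ℤ → ℝ) (G0 R : ℝ) (u v s : ℤ) (hs : s = 1 ∨ s = -1) (a : ℤ) (A : Finset ℤ) (b₀ : ℤ) (M m H i j : ℕ)
    (hG : ∀ k, |g k| ≤ G0) (hi : i ∈ Ioc m (m + H)) (hj : j ∈ Ioc m (m + H)) (hij : i < j)
    (hA : ∀ b ∈ Ioc b₀ (b₀ + M), ∀ k ∈ Icc u v, s * k - (a * (i : ℤ) ^ 2 + b * i) ∈ A)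
    (hR : ∀ d ∈ Icc 1 H, ∀ r : ℤ,
      ∑ c ∈ (Icc (u - d) (v - d * M)).filter (fun c => c + d * r ∈ Icc u v),
        |g (c + d * r)| * |∑ t ∈ Icc (1 : ℤ) M, g (c + d * t)| ≤ R) :
    |SS g u v s a A b₀ M i j| ≤ R + 2 * H * (M : ℝ) ^ 2 * G0 ^ 2 := by
  rw [mem_Ioc] at hi hj
  set d : ℕ := j - i with hd
  have hdz : (d : ℤ) = (j : ℤ) - i := by omega
  have hdm : d ∈ Icc 1 H := by rw [mem_Icc]; omega
  have hdH : (d : ℝ) ≤ H := by exact_mod_cast (mem_Icc.1 hdm).2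
  have hfin : R + 2 * d * (M : ℝ) ^ 2 * G0 ^ 2 ≤ R + 2 * H * (M : ℝ) ^ 2 * G0 ^ 2 := by
    have : 2 * (d : ℝ) * (M : ℝ) ^ 2 * G0 ^ 2 ≤ 2 * H * (M : ℝ) ^ 2 * G0 ^ 2 := by
      apply mul_le_mul_of_nonneg_right _ (sq_nonneg _)
      apply mul_le_mul_of_nonneg_right _ (sq_nonneg _)
      linarith
    linarith
  refine le_trans ?_ hfin
  rw [SS_eq g u v s hs a A b₀ M i j hA]
  rcases hs with rfl | rfl
  · have h1 := core g G0 R M u v d (-(a * (i + j) + b₀)) hG (hR d hdm _)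
    have h2 : ∀ k : ℤ, ∑ b ∈ Ioc b₀ (b₀ + M), gJ g u v (k + 1 * ((a * (j : ℤ) ^ 2 + b * j) - (a * (i : ℤ) ^ 2 + b * i))) =
        ∑ t ∈ Icc (1 : ℤ) M, gJ g u v (k - d * (-(a * (i + j) + b₀)) + d * t) := by
      intro k
      rw [bsum1 (fun b => gJ g u v (k + 1 * ((a * (j : ℤ) ^ 2 + b * j) - (a * (i : ℤ) ^ 2 + b * i))))]
      refine sum_congr rfl fun t _ => ?_
      congr 1
      rw [hdz]; ring
    simp_rw [h2]
    exact h1
  · have h1 := core g G0 R M u v d (a * (i + j) + b₀ + M + 1) hG (hR d hdm _)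
    have h2 : ∀ k : ℤ, ∑ b ∈ Ioc b₀ (b₀ + M), gJ g u v (k + -1 * ((a * (j : ℤ) ^ 2 + b * j) - (a * (i : ℤ) ^ 2 + b * i))) =
        ∑ t ∈ Icc (1 : ℤ) M, gJ g u v (k - d * (a * (i + j) + b₀ + M + 1) + d * t) := by
      intro k
      rw [bsum2 (fun b => gJ g u v (k + -1 * ((a * (j : ℤ) ^ 2 + b * j) - (a * (i : ℤ) ^ 2 + b * i))))]
      refine sum_congr rfl fun t _ => ?_
      congr 1
      rw [hdz]; ring
    simp_rw [h2]
    exact h1

/-- **Q0** -/
theorem q0 : S_Q0 := by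
  intro g G0 R s a b₀ X M m H u v hg0 hG hs hR0 hB hR
  obtain ⟨hu, huv, -, hval⟩ := hB
  have hG0 : 0 ≤ G0 := (abs_nonneg _).trans (hG 0)
  set Z : ℤ := (X : ℤ) + v + (|a| * ((m : ℤ) + H) ^ 2 + (|b₀| + M) * ((m : ℤ) + H)) with hZ
  set A : Finset ℤ := Icc (-Z) Z with hA
  have hX0 : (0 : ℤ) ≤ X := by positivity
  have hM0 : (0 : ℤ) ≤ M := by positivity
  have hmH0 : (0 : ℤ) ≤ (m : ℤ) + H := by positivity
  have hW0 : (0 : ℤ) ≤ |a| * ((m : ℤ) + H) ^ 2 + (|b₀| + M) * ((m : ℤ) + H) := by positivity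
  have hZX : (X : ℤ) ≤ Z := by
    rw [hZ]; linarith
  have hAk : ∀ i ∈ Ioc m (m + H), ∀ b ∈ Ioc b₀ (b₀ + M), ∀ k ∈ Icc u v, s * k - (a * (i : ℤ) ^ 2 + b * i) ∈ A := by
    intro i hi b hb k hk
    rw [mem_Ioc] at hi hb
    rw [mem_Icc] at hk
    have hi2 : (i : ℤ) ≤ (m : ℤ) + H := by exact_mod_cast hi.2
    have hi0 : (0 : ℤ) ≤ i := by positivity
    have h1 : |a * (i : ℤ) ^ 2| ≤ |a| * ((m : ℤ) + H) ^ 2 := by
      rw [abs_mul, abs_of_nonneg (sq_nonneg (i : ℤ))]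
      apply mul_le_mul_of_nonneg_left _ (abs_nonneg a)
      exact pow_le_pow_left₀ hi0 hi2 2
    have h2 : |b * (i : ℤ)| ≤ (|b₀| + M) * ((m : ℤ) + H) := by
      rw [abs_mul, abs_of_nonneg hi0]
      apply mul_le_mul _ hi2 hi0 (by positivity)
      have h3 := abs_le.1 (le_refl |b₀|)
      rw [abs_le]; constructor <;> linarith [hb.1, hb.2]
    have h3 := abs_le.1 h1
    have h4 := abs_le.1 h2
    rw [hA, mem_Icc, hZ]
    rcases hs with rfl | rfl
    · constructor <;> linarith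
    · constructor <;> linarith
  have hq : ∀ (b c : ℤ) (n : ℕ), qv a b c n = (a * (n : ℤ) ^ 2 + b * n) + c := fun b c n => rfl
  -- replace g by gJ and enlarge the range of `c`
  have h1 : Q2 g s a b₀ X M m H ≤
      ∑ c ∈ A, ∑ b ∈ Ioc b₀ (b₀ + M), (∑ i ∈ Ioc m (m + H), gJ g u v (s * ((a * (i : ℤ) ^ 2 + b * i) + c))) ^ 2 := by
    unfold Q2
    have h2 : ∀ c ∈ Icc (-(X : ℤ)) X,
        ∑ b ∈ Ioc b₀ (b₀ + M), (∑ n ∈ Ioc m (m + H), g (s * qv a b c n)) ^ 2 =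
        ∑ b ∈ Ioc b₀ (b₀ + M), (∑ i ∈ Ioc m (m + H), gJ g u v (s * ((a * (i : ℤ) ^ 2 + b * i) + c))) ^ 2 := by
      intro c hc
      refine sum_congr rfl fun b hb => ?_
      congr 1
      refine sum_congr rfl fun n hn => ?_
      rw [← hq]
      rcases hval c hc b hb n hn with h | h
      · rw [hg0 _ h, gJ_not]
        rw [mem_Icc]; intro hc; linarith [hc.1]
      · rw [gJ_of g h]
    rw [sum_congr rfl h2]
    apply sum_le_sum_of_subset_of_nonneg
    · intro a ha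
      rw [mem_Icc] at ha
      rw [hA, mem_Icc]; constructor <;> linarith [ha.1, ha.2]
    · intro a _ _
      exact sum_nonneg fun m _ => sq_nonneg _
  have h3 : ∑ c ∈ A, ∑ b ∈ Ioc b₀ (b₀ + M), (∑ i ∈ Ioc m (m + H), gJ g u v (s * ((a * (i : ℤ) ^ 2 + b * i) + c))) ^ 2 =
      ∑ i ∈ Ioc m (m + H), ∑ j ∈ Ioc m (m + H), SS g u v s a A b₀ M i j := by
    unfold SS
    rw [sum_comm]
    have h4 : ∀ b ∈ Ioc b₀ (b₀ + M), ∑ c ∈ A, (∑ i ∈ Ioc m (m + H), gJ g u v (s * ((a * (i : ℤ) ^ 2 + b * i) + c))) ^ 2 =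
        ∑ i ∈ Ioc m (m + H), ∑ j ∈ Ioc m (m + H), ∑ c ∈ A, gJ g u v (s * ((a * (i : ℤ) ^ 2 + b * i) + c)) *
          gJ g u v (s * ((a * (j : ℤ) ^ 2 + b * j) + c)) := by
      intro b _
      simp_rw [sq (∑ i ∈ Ioc m (m + H), _), sum_mul_sum]
      rw [sum_comm]
      exact sum_congr rfl fun i _ => sum_comm
    rw [sum_congr rfl h4, sum_comm]
    exact sum_congr rfl fun i _ => sum_comm
  rw [h3] at h1
  refine h1.trans ?_
  set O : ℝ := R + 2 * H * (M : ℝ) ^ 2 * G0 ^ 2 with hO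
  have hO0 : 0 ≤ O := by rw [hO]; positivity
  set D : ℝ := M * ∑ k ∈ Icc u v, g k ^ 2 with hD
  have hcardH : #(Ioc m (m + H)) = H := by rw [Nat.card_Ioc]; omega
  have h5 : ∀ i ∈ Ioc m (m + H), ∑ j ∈ Ioc m (m + H), SS g u v s a A b₀ M i j ≤ D + H * O := by
    intro i hi
    rw [← add_sum_erase _ _ hi]
    apply add_le_add
    · exact (SS_diag g u v s hs a A b₀ M i (hAk i hi)).le
    · calc ∑ j ∈ (Ioc m (m + H)).erase i, SS g u v s a A b₀ M i j ≤ ∑ _j ∈ (Ioc m (m + H)).erase i, O := by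
            refine sum_le_sum fun j hj => ?_
            rw [mem_erase] at hj
            rcases lt_or_gt_of_ne hj.1 with h | h
            · rw [SS_comm]
              exact (le_abs_self _).trans (SS_off g G0 R u v s hs a A b₀ M m H j i hG hj.2 hi h (hAk j hj.2) hR)
            · exact (le_abs_self _).trans (SS_off g G0 R u v s hs a A b₀ M m H i j hG hi hj.2 h (hAk i hi) hR)
        _ = #((Ioc m (m + H)).erase i) * O := by rw [sum_const, nsmul_eq_mul]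
        _ ≤ H * O := by
            apply mul_le_mul_of_nonneg_right _ hO0
            have : #((Ioc m (m + H)).erase i) ≤ H := by
              refine (card_le_card (erase_subset _ _)).trans ?_
              rw [hcardH]
            exact_mod_cast this
  calc ∑ i ∈ Ioc m (m + H), ∑ j ∈ Ioc m (m + H), SS g u v s a A b₀ M i j ≤ ∑ _i ∈ Ioc m (m + H), (D + H * O) := sum_le_sum h5
    _ = H * (D + H * O) := by rw [sum_const, nsmul_eq_mul, hcardH]
    _ = H * M * (∑ k ∈ Icc u v, g k ^ 2) + 2 * (H : ℝ) ^ 3 * (M : ℝ) ^ 2 * G0 ^ 2 + (H : ℝ) ^ 2 * R := by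
        rw [hD, hO]; ring
    _ ≤ _ := by
        have : 0 ≤ (H : ℝ) ^ 3 * (M : ℝ) ^ 2 * G0 ^ 2 := by positivity
        linarith

end Run7.h285.Q
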