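import Pool.Agent.Run7.h285.Q.Q0
import Pool.Agent.Run7.h285.E2b

/-!
# Piece QB2 of the project CRQ: the second moment over pairs `(b, c)` of the difference of two sieve models, one block
-/

set_option autoImplicit false

namespace Run7.h285.Q

open Finset Filter
open Pool.Agent.H373R2.T7 (pz Vz lamz mem_pz Vz_ge Vz_inv_le Vz_le_one Vz_inv_small)
open Pool.Agent.TH892.OW
open Pool.Agent.H442R2.EHI (evt_log_pow evt_log_ge)
open Run7.h285.E2 (Both both conv cnt shift_le diag1 Vz_sqrt ar_off)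

open Classical in
theorem off1q (C1 b w z : ℕ) (hw2 : 2 ≤ w) (hwz : w ≤ z) (hbw : Both C1 b w) (hbz : Both C1 b z) (u v : ℤ)
    (hu : 1 ≤ u) (M d k : ℕ) (hd : 1 ≤ d) (hk : Nat.log 2 d ≤ k) (hkw : 2 * k ≤ w) (r : ℤ) :
    ∑ c ∈ (Icc (u - d) (v - d * M)).filter (fun c => c + d * r ∈ Icc u v),
      |fz w z (c + d * r)| * |∑ t ∈ Icc (1 : ℤ) M, fz w z (c + d * t)| ≤
    (2 * (2 * (#(Icc u v) : ℝ) + (z : ℝ) ^ (C1 * b))) * (M * ((Vz w)⁻¹ * (4 * k / w) + 2 * (1 / 2) ^ b * (Vz z)⁻¹)) +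
      #(Icc u v) * ((Vz z)⁻¹ * (2 * (z : ℝ) ^ (C1 * b))) +
      M * ((Vz w)⁻¹ * ((Vz w)⁻¹ * (k * ((#(Icc u v) : ℝ) / w + 1)))) := by
  have hw1 : 1 ≤ w := by omega
  have hz1 : (1 : ℝ) ≤ z := by exact_mod_cast hw1.trans hwz
  have hwr : (1 : ℝ) ≤ w := by exact_mod_cast hw1
  have hwz' : (w : ℝ) ≤ z := by exact_mod_cast hwz
  have hVw : 0 < (Vz w)⁻¹ := inv_pos.2 (Vz_pos w)
  have hVz : 0 < (Vz z)⁻¹ := inv_pos.2 (Vz_pos z)
  have hVwz := Vz_anti hwz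
  obtain ⟨q, hq⟩ : ∃ q : ℤ, q = (d : ℤ) := ⟨_, rfl⟩
  have hq0 : 0 < q := by rw [hq]; omega
  have hlogq : Nat.log 2 q.natAbs ≤ k := by
    refine le_trans (Nat.log_mono_right ?_) hk
    rw [hq]; omega
  obtain ⟨Z, hZ⟩ : ∃ Z, Z = (z : ℝ) ^ (C1 * b) := ⟨_, rfl⟩
  have hZ0 : 0 ≤ Z := by rw [hZ]; positivity
  have hZw : (w : ℝ) ^ (C1 * b) ≤ Z := by rw [hZ]; exact pow_le_pow_left₀ (by positivity) hwz' _
  rw [← hZ]
  have hpb : (0 : ℝ) < (1 / 2) ^ b := by positivity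
  set J := Icc u v with hJ
  set S := (Icc (u - d) (v - d * M)).filter (fun c => c + d * r ∈ J) with hS
  have hM0 : (0 : ℝ) ≤ M := Nat.cast_nonneg _
  have hcM : (#(Icc (1 : ℤ) M) : ℝ) = M := by
    rw [Int.card_Icc, add_sub_cancel_right, Int.toNat_natCast]
  -- inner sums
  have hin : ∀ c ∈ S, |∑ t ∈ Icc (1 : ℤ) M, fz w z (c + d * t)| ≤
      M * ((Vz w)⁻¹ * (4 * k / w) + 2 * (1 / 2) ^ b * (Vz z)⁻¹) + 2 * Z +
      (if ∃ p ∈ pz z, w < p ∧ (p : ℤ) ∣ c ∧ (p : ℤ) ∣ q then (Vz w)⁻¹ * M else 0) := by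
    intro c hc
    rw [hS, mem_filter, mem_Icc] at hc
    have hpos : ∀ t ∈ Icc (1 : ℤ) M, 1 ≤ c + q * t := by
      intro t ht
      rw [mem_Icc] at ht
      have h3 : q * 1 ≤ q * t := mul_le_mul_of_nonneg_left ht.1 hq0.le
      rw [hq] at h3 ⊢
      linarith [hc.1.1]
    have hz' := (hbz _ (conv 1 M)).2 c q hpos
    have hw' := (hbw _ (conv 1 M)).2 c q hpos
    have hG := Gdiff w z hwz hw1 c q hq0.ne' k hlogq hkw
    rw [hcM] at hz' hw'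
    rw [← hZ] at hz'
    have e1 : ∑ t ∈ Icc (1 : ℤ) M, fz w z (c + d * t) =
        (∑ t ∈ Icc (1 : ℤ) M, lz z (c + q * t) - M * Gz z c q) -
        (∑ t ∈ Icc (1 : ℤ) M, lz w (c + q * t) - M * Gz w c q) + M * (Gz z c q - Gz w c q) := by
      unfold fz
      rw [hq, sum_sub_distrib]
      ring
    rw [e1]
    refine (abs_add_le _ _).trans ?_
    have h3 : |(M : ℝ) * (Gz z c q - Gz w c q)| ≤ M * ((Vz w)⁻¹ * (4 * k / w +
      (if ∃ p ∈ pz z, w < p ∧ (p : ℤ) ∣ c ∧ (p : ℤ) ∣ q then 1 else 0))) := by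
      rw [abs_mul, abs_of_nonneg hM0]
      exact mul_le_mul_of_nonneg_left hG hM0
    have h4 : (M : ℝ) * ((Vz w)⁻¹ * (4 * k / w +
      (if ∃ p ∈ pz z, w < p ∧ (p : ℤ) ∣ c ∧ (p : ℤ) ∣ q then 1 else 0))) = M * ((Vz w)⁻¹ * (4 * k / w)) +
      (if ∃ p ∈ pz z, w < p ∧ (p : ℤ) ∣ c ∧ (p : ℤ) ∣ q then (Vz w)⁻¹ * M else 0) := by
      split_ifs <;> ring
    rw [h4] at h3
    have h5 := abs_sub (∑ t ∈ Icc (1 : ℤ) M, lz z (c + q * t) - M * Gz z c q)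
      (∑ t ∈ Icc (1 : ℤ) M, lz w (c + q * t) - M * Gz w c q)
    have h6 : (1 / 2 : ℝ) ^ b * (M * Gz z c q) ≤ (1 / 2 : ℝ) ^ b * (M * (Vz z)⁻¹) :=
      mul_le_mul_of_nonneg_left (mul_le_mul_of_nonneg_left (Gz_le z c q) hM0) hpb.le
    have h7 : (1 / 2 : ℝ) ^ b * (M * Gz w c q) ≤ (1 / 2 : ℝ) ^ b * (M * (Vz z)⁻¹) :=
      mul_le_mul_of_nonneg_left (mul_le_mul_of_nonneg_left ((Gz_le w c q).trans hVwz) hM0) hpb.le
    have h8 : (M : ℝ) * ((Vz w)⁻¹ * (4 * k / w) + 2 * (1 / 2) ^ b * (Vz z)⁻¹) =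
        M * ((Vz w)⁻¹ * (4 * k / w)) + (1 / 2 : ℝ) ^ b * (M * (Vz z)⁻¹) + (1 / 2 : ℝ) ^ b * (M * (Vz z)⁻¹) := by ring
    rw [h8]
    linarith
  -- products
  have hstep : ∀ c ∈ S, |fz w z (c + d * r)| * |∑ t ∈ Icc (1 : ℤ) M, fz w z (c + d * t)| ≤
      |fz w z (c + d * r)| * (M * ((Vz w)⁻¹ * (4 * k / w) + 2 * (1 / 2) ^ b * (Vz z)⁻¹)) +
      (Vz z)⁻¹ * (2 * Z) + (Vz w)⁻¹ * ((Vz w)⁻¹ * (M * ∑ p ∈ (pz z).filter (fun p : ℕ => w < p ∧ (p : ℤ) ∣ q),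
        (if (p : ℤ) ∣ (c + d * r) then (1 : ℝ) else 0))) := by
    intro c hc
    have h3 := mul_le_mul_of_nonneg_left (hin c hc) (abs_nonneg (fz w z (c + d * r)))
    refine h3.trans ?_
    rw [mul_add, mul_add]
    have h4 : |fz w z (c + d * r)| * (2 * Z) ≤ (Vz z)⁻¹ * (2 * Z) :=
      mul_le_mul_of_nonneg_right (fz_abs w z hwz _) (by positivity)
    have h5 : |fz w z (c + d * r)| * (if ∃ p ∈ pz z, w < p ∧ (p : ℤ) ∣ c ∧ (p : ℤ) ∣ q then (Vz w)⁻¹ * M else 0) ≤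
        (Vz w)⁻¹ * ((Vz w)⁻¹ * (M * ∑ p ∈ (pz z).filter (fun p : ℕ => w < p ∧ (p : ℤ) ∣ q),
        (if (p : ℤ) ∣ (c + d * r) then (1 : ℝ) else 0))) := by
      have hs0 : 0 ≤ ∑ p ∈ (pz z).filter (fun p : ℕ => w < p ∧ (p : ℤ) ∣ q),
          (if (p : ℤ) ∣ (c + d * r) then (1 : ℝ) else 0) := by
        apply sum_nonneg; intro p _; split_ifs <;> norm_num
      split_ifs with hcc
      · obtain ⟨p, hp, hwp, hpc, hpq⟩ := hcc
        have hpp := (mem_pz.1 hp).2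
        have hpd : (p : ℤ) ∣ (d : ℤ) := by
          rw [hq] at hpq
          exact hpq
        have hpu : (p : ℤ) ∣ c + d * r := dvd_add hpc (hpd.mul_right r)
        rw [hS, mem_filter, hJ, mem_Icc, mem_Icc] at hc
        have hlz : lz z (c + d * r) = 0 := by
          rw [lz_eq z _ (by linarith [hc.2.1]), if_neg, mul_zero]
          intro h6
          exact h6 p hp hpu
        have hfu : |fz w z (c + d * r)| ≤ (Vz w)⁻¹ := by
          unfold fz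
          rw [hlz, zero_sub, abs_neg, abs_of_nonneg (lz_nonneg w _)]
          exact lz_le w _
        have h6 : (1 : ℝ) ≤ ∑ p ∈ (pz z).filter (fun p : ℕ => w < p ∧ (p : ℤ) ∣ q),
            (if (p : ℤ) ∣ (c + d * r) then (1 : ℝ) else 0) := by
          have h7 : (if (p : ℤ) ∣ (c + d * r) then (1 : ℝ) else 0) ≤ ∑ p ∈ (pz z).filter (fun p : ℕ => w < p ∧ (p : ℤ) ∣ q),
            (if (p : ℤ) ∣ (c + d * r) then (1 : ℝ) else 0) := by
            apply single_le_sum (f := fun p : ℕ => (if (p : ℤ) ∣ (c + d * r) then (1 : ℝ) else 0))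
            · intro p' _; split_ifs <;> norm_num
            · rw [mem_filter]; exact ⟨hp, hwp, hpq⟩
          rwa [if_pos hpu] at h7
        apply mul_le_mul hfu _ (by positivity) hVw.le
        apply mul_le_mul_of_nonneg_left _ hVw.le
        calc (M : ℝ) = M * 1 := (mul_one _).symm
          _ ≤ _ := mul_le_mul_of_nonneg_left h6 hM0
      · rw [mul_zero]; positivity
    linarith
  refine (sum_le_sum hstep).trans ?_
  rw [sum_add_distrib, sum_add_distrib, ← sum_mul, sum_const, nsmul_eq_mul]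
  have hE0 : 0 ≤ (Vz w)⁻¹ * (4 * k / w) + 2 * (1 / 2) ^ b * (Vz z)⁻¹ := by positivity
  have hSJ : ∀ c ∈ S, c + d * r ∈ Icc u v := by
    intro c hc; rw [hS, mem_filter] at hc; exact hc.2
  -- first
  have f1 : ∑ c ∈ S, |fz w z (c + d * r)| ≤ 2 * (2 * (#J : ℝ) + Z) := by
    refine (shift_le (fun k => |fz w z k|) (fun k => abs_nonneg _) S (d * r) u v hSJ).trans ?_
    refine (sum_le_sum fun k _ => fz_abs2 w z k).trans ?_
    rw [sum_add_distrib]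
    have h6 := (hbz _ (conv u v)).1
    have h7 := (hbw _ (conv u v)).1
    rw [← hZ] at h6
    rw [hJ]
    linarith
  -- the number of terms
  have hSc : (#S : ℝ) ≤ #J := by
    have : #S ≤ #J := by
      apply card_le_card_of_injOn (fun c => c + d * r)
      · intro c hc; exact hSJ c hc
      · intro x _ y _ h; simpa using h
    exact_mod_cast this
  -- the bad numbers
  have f2 : ∑ c ∈ S, (Vz w)⁻¹ * ((Vz w)⁻¹ * (M * ∑ p ∈ (pz z).filter (fun p : ℕ => w < p ∧ (p : ℤ) ∣ q),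
        (if (p : ℤ) ∣ (c + d * r) then (1 : ℝ) else 0))) ≤
      M * ((Vz w)⁻¹ * ((Vz w)⁻¹ * (k * ((#J : ℝ) / w + 1)))) := by
    rw [← mul_sum, ← mul_sum, ← mul_sum, sum_comm]
    have h3 : ∀ p ∈ (pz z).filter (fun p : ℕ => w < p ∧ (p : ℤ) ∣ q),
        ∑ c ∈ S, (if (p : ℤ) ∣ (c + d * r) then (1 : ℝ) else 0) ≤ (#J : ℝ) / w + 1 := by
      intro p hp
      rw [mem_filter, mem_pz] at hp
      have hp1 : 1 ≤ p := hp.1.2.one_le
      have hpw : (w : ℝ) ≤ p := by exact_mod_cast hp.2.1.le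
      refine (shift_le (fun k => if (p : ℤ) ∣ k then (1 : ℝ) else 0)
        (fun k => by split_ifs <;> norm_num) S (d * r) u v hSJ).trans ?_
      rw [sum_boole]
      refine (cnt p hp1 u v).trans ?_
      have : (#(Icc u v) : ℝ) / p ≤ #(Icc u v) / w :=
        div_le_div_of_nonneg_left (Nat.cast_nonneg _) (by linarith) hpw
      rw [hJ]
      linarith
    have h4 := sum_le_sum h3
    rw [sum_const, nsmul_eq_mul] at h4
    have h5 : (#((pz z).filter (fun p : ℕ => w < p ∧ (p : ℤ) ∣ q)) : ℝ) ≤ k := by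
      exact_mod_cast card_pf z w q hq0.ne' k hlogq
    have h6 := h4.trans (mul_le_mul_of_nonneg_right h5 (show (0 : ℝ) ≤ (#J : ℝ) / w + 1 by positivity))
    calc _ ≤ (Vz w)⁻¹ * ((Vz w)⁻¹ * (M * (k * ((#J : ℝ) / w + 1)))) := by
          apply mul_le_mul_of_nonneg_left _ hVw.le
          apply mul_le_mul_of_nonneg_left _ hVw.le
          exact mul_le_mul_of_nonneg_left h6 hM0
      _ = _ := by ring
  have f3 := mul_le_mul_of_nonneg_right f1 (mul_nonneg hM0 hE0)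
  have f4 := mul_le_mul_of_nonneg_right hSc (show (0 : ℝ) ≤ (Vz z)⁻¹ * (2 * Z) by positivity)
  linarith


/-- **QB2** -/
theorem qb2 : S_QB2 := by
  intro δ D E u₀ hδ hE hu₀
  obtain ⟨C1, y0, hC1, hy0, hb0⟩ := both
  obtain ⟨Xw, hXw⟩ := params_w D u₀ y0 hu₀
  obtain ⟨Xz, hXz⟩ := params_z E C1 hE
  obtain ⟨Xv, hXv⟩ := Vz_sqrt E hE
  obtain ⟨Xe, hXe⟩ := eventually_atTop.1 (((evt_log_ge 10000).and (evt_log_pow (D + 2) δ hδ)).and
    (evt_log_pow 2 (1 / 16) (by norm_num)))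
  refine ⟨max (max Xw Xz) (max Xv (max Xe 1)), fun X hX s a b₀ u v M m₁ H hs hH hHD hM hMX hB => ?_⟩
  obtain ⟨hwy, hwl, hwk⟩ := hXw X (by omega)
  obtain ⟨hm1, hml, hz3, -, b, hb, hb1, hpb, hzb⟩ := hXz X (by omega)
  have hVz := hXv X (by omega)
  obtain ⟨⟨hl, hlδ⟩, hlX⟩ := hXe X (by omega)
  have hX1 : 1 ≤ X := by omega
  obtain ⟨k, hk1, hk2, hk3, hk4⟩ := hwk H hH hHD
  clear hXw hXz hXv hXe hwk hX
  have hwz : ⌊Real.log X ^ (1 / (u₀ : ℝ))⌋₊ ≤ ⌊Real.log X ^ E⌋₊ := by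
    apply Nat.floor_le_floor
    have hl1 : 1 ≤ Real.log X := by linarith
    have hur : (0 : ℝ) < u₀ := by exact_mod_cast hu₀
    calc Real.log X ^ (1 / (u₀ : ℝ)) ≤ Real.log X ^ (1 : ℝ) := by
          apply Real.rpow_le_rpow_of_exponent_le hl1
          rw [div_le_one hur]; exact_mod_cast hu₀
      _ = Real.log X := Real.rpow_one _
      _ ≤ Real.log X ^ E := le_self_pow₀ hl1 (by omega)
  obtain ⟨x, hx, hx1, hx16, hx8, hx3, hx5⟩ := Run7.h285.Blk.xfacts X hX1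
  rw [← hx] at hlX hzb
  have hX1r : (1 : ℝ) ≤ X := by exact_mod_cast hX1
  have hX0 : (0 : ℝ) < X := by linarith
  have hXδ : (X : ℝ) ^ (1 - δ) * (X : ℝ) ^ δ = X := by
    rw [← Real.rpow_add hX0, sub_add_cancel, Real.rpow_one]
  have hXδ0 : 0 ≤ (X : ℝ) ^ (1 - δ) := by positivity
  generalize ⌊Real.log X ^ (1 / (u₀ : ℝ))⌋₊ = w at *
  generalize ⌊Real.log X ^ E⌋₊ = z at *
  generalize hll : Real.log X = l at *
  generalize Real.log l = m at *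
  have hl0 : 0 < l := by linarith
  have hl1 : 1 ≤ l := by linarith
  have hm0 : 0 < m := by linarith
  have hw2 : 2 ≤ w := by omega
  have hbw := hb0 b hb w (by omega)
  have hbz := hb0 b hb z (by omega)
  have hVz0 : 0 < (Vz z)⁻¹ := inv_pos.2 (Vz_pos z)
  have hVw1 := one_le_Vz_inv w
  have hsl : √l ≤ l := by rw [Real.sqrt_le_left hl0.le]; nlinarith
  have hs0 : 0 ≤ √l := Real.sqrt_nonneg l
  have hss : √l * √l = l := Real.mul_self_sqrt hl0.le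
  have hZ0 : 0 ≤ (z : ℝ) ^ (C1 * b) := by positivity
  have hlx : l ≤ x := (le_self_pow₀ hl1 (by omega)).trans hlX
  have hxX : x ≤ X := by rw [← hx16]; exact le_self_pow₀ hx1 (by norm_num)
  have hHl : (H : ℝ) ≤ l ^ D := hHD
  have hM0 : (0 : ℝ) ≤ M := Nat.cast_nonneg _
  have hH0 : (0 : ℝ) ≤ H := Nat.cast_nonneg _
  obtain ⟨hu1, huv, hvu, -⟩ := id hB
  have hJ : (#(Icc u v) : ℝ) ≤ 8 * X := by
    rw [Int.card_Icc]
    have h1 : (v + 1 - u).toNat ≤ 7 * X + 1 := by omega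
    have h2 : ((v + 1 - u).toNat : ℝ) ≤ 7 * X + 1 := by exact_mod_cast h1
    linarith
  have hMx5 : x ^ 5 ≤ M := by linarith
  have hZx : (z : ℝ) ^ (C1 * b) ≤ x := hzb
  have hR2 : ∀ d ∈ Icc 1 H, ∀ r : ℤ,
      ∑ c ∈ (Icc (u - d) (v - d * M)).filter (fun c => c + d * r ∈ Icc u v),
        |fz w z (c + d * r)| * |∑ t ∈ Icc (1 : ℤ) M, fz w z (c + d * t)| ≤ X * M / (2 * m ^ 2) := by
    intro d hd r
    refine (off1q C1 b w z hw2 hwz hbw hbz u v hu1 M d k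
      (mem_Icc.1 hd).1 ((Nat.log_mono_right (by have := (mem_Icc.1 hd).2; omega)).trans hk2) hk3 r).trans ?_
    refine (ar_off (2 * X) M _ k w (Vz w)⁻¹ (Vz z)⁻¹ ((z : ℝ) ^ (C1 * b)) ((1 / 2) ^ b) m l (by linarith) hM0
      (Nat.cast_nonneg _) (by linarith)
      (Nat.cast_nonneg _) (by exact_mod_cast (by omega : 1 ≤ w)) (by linarith) hVw1 hVz0.le hZ0 (by linarith)
      (by positivity) hpb hl1 hm0 hml hVz hk4 ?_).trans (le_of_eq ?_)
    · calc l * (√l * (z : ℝ) ^ (C1 * b)) ≤ l * (l * x) := by gcongr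
        _ = l ^ 2 * x := by ring
        _ ≤ x * x := mul_le_mul_of_nonneg_right hlX (by linarith)
        _ = x ^ 2 := by ring
        _ ≤ x ^ 5 := pow_le_pow_right₀ hx1 (by norm_num)
        _ ≤ M := hMx5
    · field_simp; ring
  refine (q0 (fz w z) (Vz z)⁻¹ (X * M / (2 * m ^ 2)) s a b₀ X M m₁ H u v (fz_neg w z)
    (fz_abs w z hwz) hs (by positivity) hB hR2).trans ?_
  have hdiag := diag1 C1 b w z hwz hbw hbz u v
  have hd2 : ∑ k ∈ Icc u v, fz w z k ^ 2 ≤ X * √l := by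
    refine hdiag.trans ?_
    have h1 : 2 * (2 * (#(Icc u v) : ℝ) + (z : ℝ) ^ (C1 * b)) ≤ 36 * X := by linarith
    calc (Vz z)⁻¹ * (2 * (2 * (#(Icc u v) : ℝ) + (z : ℝ) ^ (C1 * b))) ≤ (Vz z)⁻¹ * (36 * X) :=
          mul_le_mul_of_nonneg_left h1 hVz0.le
      _ = (36 * (Vz z)⁻¹) * X := by ring
      _ ≤ √l * X := by gcongr
      _ = _ := by ring
  have hG2 : (Vz z)⁻¹ ^ 2 ≤ l / 1296 := by
    have h1 : (Vz z)⁻¹ ≤ √l / 36 := by linarith
    calc (Vz z)⁻¹ ^ 2 ≤ (√l / 36) ^ 2 := pow_le_pow_left₀ hVz0.le h1 2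
      _ = (√l * √l) / 1296 := by ring
      _ = _ := by rw [hss]
  have h3 : 8 * (H : ℝ) ^ 3 * (M : ℝ) ^ 2 * (Vz z)⁻¹ ^ 2 ≤ (H : ℝ) ^ 2 * (X * M / (2 * m ^ 2)) := by
    have h4 : (H : ℝ) * M * l * (2 * m ^ 2) * 8 / 1296 ≤ X := by
      have h5 : (2 : ℝ) * m ^ 2 ≤ l := by nlinarith [sq_nonneg m]
      calc (H : ℝ) * M * l * (2 * m ^ 2) * 8 / 1296 ≤ l ^ D * (X : ℝ) ^ (1 - δ) * l * l * 8 / 1296 := by
            gcongr
        _ = ((X : ℝ) ^ (1 - δ) * l ^ (D + 2)) * (8 / 1296) := by ring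
        _ ≤ ((X : ℝ) ^ (1 - δ) * (X : ℝ) ^ δ) * 1 := by
            apply mul_le_mul _ (by norm_num) (by norm_num) (by positivity)
            exact mul_le_mul_of_nonneg_left hlδ hXδ0
        _ = X := by rw [mul_one, hXδ]
    calc 8 * (H : ℝ) ^ 3 * (M : ℝ) ^ 2 * (Vz z)⁻¹ ^ 2 ≤ 8 * (H : ℝ) ^ 3 * (M : ℝ) ^ 2 * (l / 1296) := by gcongr
      _ = (H : ℝ) ^ 2 * M * ((H : ℝ) * M * l * (2 * m ^ 2) * 8 / 1296) / (2 * m ^ 2) := by field_simp
      _ ≤ (H : ℝ) ^ 2 * M * X / (2 * m ^ 2) := by gcongr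
      _ = _ := by ring
  have h5 : (H : ℝ) * M * ∑ k ∈ Icc u v, fz w z k ^ 2 ≤ H * M * (X * √l) :=
    mul_le_mul_of_nonneg_left hd2 (by positivity)
  have h6 : (H : ℝ) ^ 2 * (X * M / (2 * m ^ 2)) = M * (X * ((H : ℝ) ^ 2 / m ^ 2)) / 2 := by field_simp
  have e9 : X * (M : ℝ) * (H * √l + (H : ℝ) ^ 2 / m ^ 2) = H * M * (X * √l) + M * (X * ((H : ℝ) ^ 2 / m ^ 2)) := by
    ring
  rw [e9]
  linarith

end Run7.h285.Q
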