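import Pool.Agent.Run7.h285.All
import Pool.Agent.Run7.h285.Q.EQM
import Pool.Agent.Run7.h285.Q.Q0
import Pool.Agent.Run7.h285.Q.QB2
import Pool.Agent.Run7.h209.Q.Q12
import Pool.Agent.Run7.h209.Q.QB1
import Pool.Agent.Run7.h824.Q.FLQ
import Pool.Agent.Run7.h824.Q.HGQ

/-!
# Project CRQ: all inputs
-/

set_option autoImplicit false

namespace Run7.h285.Q

open Finset Filter Topology
open Pool.Agent.W468.ConjF (CF nr)
open Pool.Agent.H373R2.T7 (pz Vz mem_pz)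

/-- the theorem without hypotheses -/
theorem eqm_all : S_EQM := by
  have h1 := Run7.h437.CR.lzf Run7.h18.CR.lup
  have h2 := Run7.h292.CR.moc h1
  have h3 := Run7.h437.CR.pw Run7.h18.CR.chr h2
  have h4 := Run7.h545.CR.dpl h3 Run7.h18.CR.chr Run7.h292.CR.fd
  have h5 := Run7.h292.CR.sic h4 Run7.h373.CR.win
  have h6 := Run7.h373.CR.sia h5
  have h7 := Run7.h373.CR.fi h6 Run7.h373.CR.lz
  have h8 := Run7.h373.CR.apm h7
  exact eqm (Run7.h209.Q.q1 (Run7.h209.Q.qb1 q0 h8)) (Run7.h209.Q.q2 qb2) Run7.h824.Q.t_FLQ Run7.h824.Q.t_HGQ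

/-- the product of Hardy and Littlewood, cut at `N` -/
noncomputable def HL (a b c : ℤ) (N : ℕ) : ℝ :=
  ∏ p ∈ (range (N + 1)).filter Nat.Prime, (1 - (nr a b c p : ℝ) / p) / (1 - 1 / (p : ℝ))

lemma loc_of (a b c : ℤ) (h : ∀ p : ℕ, p.Prime → nr a b c p < p) : Loc a b c := by
  constructor
  · intro p hp h1 h2 h3
    refine absurd (h p hp) (not_lt.2 (le_of_eq ?_))
    unfold nr
    rw [filter_true_of_mem, card_range]
    intro r _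
    exact dvd_add (dvd_add (Dvd.dvd.mul_right h1 _) (Dvd.dvd.mul_right h2 _)) h3
  · rintro ⟨h1, h2⟩
    refine absurd (h 2 Nat.prime_two) (not_lt.2 (le_of_eq ?_))
    unfold nr
    rw [filter_true_of_mem, card_range]
    intro r hr
    rw [mem_range] at hr
    interval_cases r
    · simpa using h2
    · have : a * ((1 : ℕ) : ℤ) ^ 2 + b * ((1 : ℕ) : ℤ) + c = (a + b) + c := by push_cast; ring
      rw [this]
      push_cast
      exact dvd_add h1 h2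

lemma HL_eq (a b c : ℤ) (h : Loc a b c) (N : ℕ) (hN : 2 ≤ N) : HL a b c N = 2 * CF a b c N := by
  have h1 := Run7.h824.Q.prod_nr h N hN
  have hpz : pz N = (range (N + 1)).filter Nat.Prime := by
    ext p
    rw [mem_pz, mem_filter, mem_range, Nat.lt_succ_iff]
  have h2 : HL a b c N = (∏ p ∈ pz N, (1 - (nr a b c p : ℝ) / p)) / Vz N := by
    unfold HL Vz
    rw [← hpz, ← prod_div_distrib]
  rw [h2, h1, mul_comm, mul_div_assoc, div_self (Pool.Agent.H373R2.T7.Vz_pos N).ne', mul_one]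

/-- the theorem with the product over all primes -/
theorem eqm_hl : ∀ ε : ℝ, 0 < ε → ∃ T : ℝ, 0 < T ∧ ∀ (ρ : ℝ) (C : ℕ), 0 < ρ → ∃ B X₀ : ℕ, ∀ X : ℕ, X₀ ≤ X →
    ∀ (b₀ : ℤ) (a M m : ℕ), 1 ≤ a → (a : ℝ) ≤ (X : ℝ) ^ (1 - ρ) → (X : ℝ) ^ (1 / 3 : ℝ) * Real.log X ^ B ≤ M →
    (|(b₀ : ℝ)| + M) ^ 2 ≤ a * X * Real.log X ^ C →
    ∃ Bad ⊆ Icc (-(X : ℤ)) X ×ˢ Ioc b₀ (b₀ + M), (#Bad : ℝ) ≤ ε * (X * M) ∧
      ∀ c ∈ Icc (-(X : ℤ)) X, ∀ b ∈ Ioc b₀ (b₀ + M), (c, b) ∉ Bad → (∀ p : ℕ, p.Prime → nr a b c p < p) →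
        ¬ IsSquare (b ^ 2 - 4 * a * c) ∧ ∃ h : ℝ, 0 < h ∧ Tendsto (fun N : ℕ => HL a b c N) atTop (𝓝 h) ∧
          ∀ H : ℕ, T * Real.log X ≤ H → (a : ℝ) * (m + H) ^ 2 ≤ X * Real.log X ^ C →
          |(P a b c m H : ℝ) - h * W a b c m H| ≤ ε * (h * W a b c m H) := by
  intro ε hε
  obtain ⟨T, hT, h1⟩ := eqm_all ε hε
  refine ⟨T, hT, fun ρ C hρ => ?_⟩
  obtain ⟨B, X₀, h2⟩ := h1 ρ C hρ
  refine ⟨B, X₀, fun X hX b₀ a M m ha haX hM hb => ?_⟩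
  obtain ⟨Bad, hB1, hB2, hB3⟩ := h2 X hX b₀ a M m ha haX hM hb
  refine ⟨Bad, hB1, hB2, fun c hc b hb' hbad hloc => ?_⟩
  have hL := loc_of _ _ _ hloc
  obtain ⟨hsq, h, hh, hlim, hH⟩ := hB3 c hc b hb' hbad hL
  refine ⟨hsq, 2 * h, by positivity, ?_, hH⟩
  refine (hlim.const_mul 2).congr' ?_
  filter_upwards [eventually_ge_atTop 2] with N hN
  exact (HL_eq _ _ _ hL N hN).symm

end Run7.h285.Q
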