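import Pool.Agent.Run7.h285.Q.EQa
import Pool.Agent.Run7.h285.E2b

/-!
# Project CRQ, piece EQ: the second moments for all lengths and the assembly
-/

set_option autoImplicit false

namespace Run7.h285.Q

open Finset Filter Topology
open Pool.Agent.H373R2.T7 (pz Vz lamz mem_pz Vz_ge Vz_inv_le Vz_le_one Vz_inv_small)
open Pool.Agent.TH892.SW (ff ffn wt wt_nonneg wt_le flq HP)
open Pool.Agent.TH892.OW (fz lz evt_ll)
open Run7.h285.E3 (wt_close)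
open Pool.Agent.W468.ConjF (CF)
open Pool.Agent.H442R2.EHI (evt_log_pow evt_log_ge)

/-- the second moments of `ff` for all lengths -/
theorem mom_ff (h1 : S_Q1) (θ : ℝ) (hθ : 0 < θ) : ∃ T : ℝ, 1 ≤ T ∧ ∀ (ρ : ℝ) (C : ℕ), 0 < ρ → ∃ E1 : ℕ, ∀ E : ℕ, E1 ≤ E →
    ∃ B X₀ : ℕ, ∀ X : ℕ, X₀ ≤ X → ∀ (b₀ : ℤ) (a M m H : ℕ), 1 ≤ a → (a : ℝ) ≤ (X : ℝ) ^ (1 - ρ) →
      (X : ℝ) ^ (1 / 3 : ℝ) * Real.log X ^ B ≤ M → (|(b₀ : ℝ)| + M) ^ 2 ≤ a * X * Real.log X ^ C →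
      T * Real.log X ≤ H → (a : ℝ) * (m + H) ^ 2 ≤ X * Real.log X ^ C → ∀ s : ℤ, (s = 1 ∨ s = -1) →
      Q2 (ff ⌊Real.log X ^ E⌋₊) s a b₀ X M m H ≤ X * M * (((H : ℝ) / Real.log X) ^ 2 * θ) := by
  obtain ⟨K₀, hK, h1⟩ := h1
  refine ⟨2 * K₀ / θ + 1, by have : 0 < 2 * K₀ / θ := by positivity
                             linarith, fun ρ C hρ => ?_⟩
  obtain ⟨E1, h1⟩ := h1 ρ 3 C 3 hρ
  refine ⟨E1, fun E hE => ?_⟩
  obtain ⟨B, X1, h1⟩ := h1 E hE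
  obtain ⟨X2, hX2⟩ := eventually_atTop.1 ((evt_log_ge 10000).and (evt_log_ge (16 * K₀ / θ)))
  refine ⟨B, max X1 X2, fun X hX b₀ a M m H ha haX hM hb hT hW s hs => ?_⟩
  obtain ⟨hl, hlK⟩ := hX2 X (le_trans (le_max_right _ _) hX)
  have h2 := fun m₁ r hr hr3 hW1 => h1 X (le_trans (le_max_left _ _) hX) s b₀ a M m₁ r hs ha haX hr hr3 hM hb hW1
  clear h1 hX2 hX
  generalize Real.log X = l at *
  have hl0 : 0 < l := by linarith
  have hl1 : 1 ≤ l := by linarith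
  have hXM : 0 ≤ (X : ℝ) * M := by positivity
  have hq : 2 * K₀ / θ + 1 ≤ (H : ℝ) / l := by rw [le_div_iff₀ hl0]; exact hT
  have hH1 : 1 ≤ H := by
    have h3 : (0 : ℝ) < H := by
      have : 0 < 2 * K₀ / θ := by positivity
      have : 0 < (2 * K₀ / θ + 1) * l := by positivity
      linarith
    exact_mod_cast h3
  have hKl : 16 * K₀ ≤ θ * l := by rw [div_le_iff₀ hθ] at hlK; linarith
  rcases le_or_gt (H : ℝ) (l ^ 3) with h3 | h3
  · refine (h2 m H hH1 h3 hW).trans ?_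
    apply mul_le_mul_of_nonneg_left _ hXM
    set q := (H : ℝ) / l with hqd
    have hq0 : 0 < q := by
      have : 0 < 2 * K₀ / θ := by positivity
      linarith
    have e1 : K₀ * H / l = K₀ * q := by rw [hqd]; ring
    have e2 : (H : ℝ) ^ 2 / l ^ 3 = q ^ 2 / l := by rw [hqd]; field_simp
    rw [e1, e2]
    have h4 : K₀ * q ≤ q ^ 2 * (θ / 2) := by
      have h5 : 2 * K₀ / θ ≤ q := by linarith
      rw [div_le_iff₀ hθ] at h5
      nlinarith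
    have h6 : q ^ 2 / l ≤ q ^ 2 * (θ / 2) := by
      rw [div_le_iff₀ hl0]
      have h7 : 1 ≤ θ / 2 * l := by linarith
      have h8 : 0 ≤ q ^ 2 := sq_nonneg q
      nlinarith
    linarith
  · obtain ⟨H₁, hH₁⟩ : ∃ H₁, H₁ = ⌊l ^ 3⌋₊ := ⟨_, rfl⟩
    have a1 : (H₁ : ℝ) ≤ l ^ 3 := by rw [hH₁]; exact Nat.floor_le (by positivity)
    have a2 : l ^ 2 ≤ (H₁ : ℝ) := by
      have h4 := Nat.lt_floor_add_one (l ^ 3)
      rw [← hH₁] at h4
      nlinarith [sq_nonneg l]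
    have a3 : H₁ ≤ H := by
      have : (H₁ : ℝ) ≤ H := by linarith
      exact_mod_cast this
    have hl2 : 0 < l ^ 2 := by positivity
    have a4 : (0 : ℝ) < H₁ := by linarith
    have a5 : 1 ≤ H₁ := by exact_mod_cast a4
    have h4 := Q2_long (ff ⌊l ^ E⌋₊) s a b₀ X M H₁ (X * M * (K₀ * H₁ / l + (H₁ : ℝ) ^ 2 / l ^ 3)) ((m : ℝ) + H) a5
      (by positivity) (by
        intro m₁ r hr hr1 hW1
        have hr' : (r : ℝ) ≤ H₁ := by exact_mod_cast hr1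
        refine (h2 m₁ r hr (by linarith) (le_trans ?_ hW)).trans ?_
        · gcongr
        · gcongr) m H a3 le_rfl
    refine h4.trans ?_
    have e1 : 4 * ((H : ℝ) / H₁) ^ 2 * (X * M * (K₀ * H₁ / l + (H₁ : ℝ) ^ 2 / l ^ 3)) =
        X * M * (((H : ℝ) / l) ^ 2 * (4 * K₀ * l / H₁ + 4 / l)) := by
      field_simp
    rw [e1]
    apply mul_le_mul_of_nonneg_left _ hXM
    apply mul_le_mul_of_nonneg_left _ (sq_nonneg _)
    have h5 : 4 * K₀ * l / H₁ ≤ θ / 2 := by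
      rw [div_le_iff₀ a4]
      nlinarith
    have h6 : 4 / l ≤ θ / 2 := by
      rw [div_le_iff₀ hl0]
      linarith
    linarith

/-- the second moments of `fz` for all lengths -/
theorem mom_fz (h1 : S_Q2) (θ : ℝ) (hθ : 0 < θ) (ρ : ℝ) (C E u : ℕ) (hρ : 0 < ρ) (hE : 1 ≤ E) (hu : 1 ≤ u) :
    ∃ X₀ : ℕ, ∀ X : ℕ, X₀ ≤ X → ∀ (b₀ : ℤ) (a M m H : ℕ), 1 ≤ a → (a : ℝ) ≤ (X : ℝ) ^ (1 - ρ) →
      (X : ℝ) ^ (1 / 3 : ℝ) ≤ M → (|(b₀ : ℝ)| + M) ^ 2 ≤ a * X * Real.log X ^ C →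
      Real.log X ≤ H → (a : ℝ) * (m + H) ^ 2 ≤ X * Real.log X ^ C → ∀ s : ℤ, (s = 1 ∨ s = -1) →
      Q2 (fz ⌊Real.log X ^ (1 / (u : ℝ))⌋₊ ⌊Real.log X ^ E⌋₊) s a b₀ X M m H ≤ X * M * ((H : ℝ) ^ 2 * θ) := by
  obtain ⟨X1, h1⟩ := h1 ρ C 3 E u hρ hE hu
  obtain ⟨X2, hX2⟩ := eventually_atTop.1 (((evt_log_ge 10000).and (evt_log_ge ((8 / θ) ^ 2))).and
    (evt_log_ge (Real.exp (8 / θ + 1))))
  refine ⟨max X1 X2, fun X hX b₀ a M m H ha haX hM hb hT hW s hs => ?_⟩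
  obtain ⟨⟨hl, hls⟩, hle⟩ := hX2 X (le_trans (le_max_right _ _) hX)
  have h2 := fun m₁ r hr hr3 hW1 => h1 X (le_trans (le_max_left _ _) hX) s b₀ a M m₁ r hs ha haX hr hr3 hM hb hW1
  clear h1 hX2 hX
  have h8 : 0 < 8 / θ := by positivity
  have hm : 8 / θ + 1 ≤ Real.log (Real.log X) := by
    rw [Real.le_log_iff_exp_le (by linarith)]; exact hle
  generalize ⌊Real.log X ^ (1 / (u : ℝ))⌋₊ = w at *
  generalize ⌊Real.log X ^ E⌋₊ = z at *
  generalize Real.log X = l at *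
  generalize Real.log l = k at *
  have hl0 : 0 < l := by linarith
  have hl1 : 1 ≤ l := by linarith
  have hs8 : 8 / θ ≤ √l := Real.le_sqrt_of_sq_le hls
  have hs0 : 0 < √l := by linarith
  have hss : √l * √l = l := Real.mul_self_sqrt hl0.le
  have hm0 : 0 < k := by linarith
  have b1 : 4 / √l ≤ θ / 2 := by
    rw [div_le_iff₀ hs0]
    rw [div_le_iff₀ hθ] at hs8
    linarith
  have b2 : 4 / k ^ 2 ≤ θ / 2 := by
    rw [div_le_iff₀ (by positivity)]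
    have h3 : 8 / θ ≤ k ^ 2 := by nlinarith
    rw [div_le_iff₀ hθ] at h3
    linarith
  have hXM : 0 ≤ (X : ℝ) * M := by positivity
  have hHr : (0 : ℝ) < H := by linarith
  have hH1 : 1 ≤ H := by exact_mod_cast hHr
  rcases le_or_gt (H : ℝ) (l ^ 3) with h3 | h3
  · refine (h2 m H hH1 h3 hW).trans ?_
    apply mul_le_mul_of_nonneg_left _ hXM
    have h4 : (H : ℝ) * √l ≤ (H : ℝ) ^ 2 * (1 / √l) := by
      rw [mul_one_div, le_div_iff₀ hs0]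
      have : (H : ℝ) * √l * √l = H * l := by rw [mul_assoc, hss]
      rw [this]
      nlinarith
    have h5 : (H : ℝ) ^ 2 * (1 / √l) ≤ (H : ℝ) ^ 2 * (θ / 2) := by
      apply mul_le_mul_of_nonneg_left _ (sq_nonneg _)
      have : 1 / √l ≤ 4 / √l := by gcongr; norm_num
      linarith
    have h6 : (H : ℝ) ^ 2 / k ^ 2 ≤ (H : ℝ) ^ 2 * (θ / 2) := by
      rw [div_eq_mul_one_div]
      apply mul_le_mul_of_nonneg_left _ (sq_nonneg _)
      have : 1 / k ^ 2 ≤ 4 / k ^ 2 := by gcongr; norm_num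
      linarith
    linarith
  · obtain ⟨H₁, hH₁⟩ : ∃ H₁, H₁ = ⌊l ^ 3⌋₊ := ⟨_, rfl⟩
    have a1 : (H₁ : ℝ) ≤ l ^ 3 := by rw [hH₁]; exact Nat.floor_le (by positivity)
    have a2 : l ≤ (H₁ : ℝ) := by
      have h4 := Nat.lt_floor_add_one (l ^ 3)
      rw [← hH₁] at h4
      have h5 : l ^ 3 = l * l ^ 2 := by ring
      nlinarith [sq_nonneg l]
    have a3 : H₁ ≤ H := by
      have : (H₁ : ℝ) ≤ H := by linarith
      exact_mod_cast this
    have a4 : (0 : ℝ) < H₁ := by linarith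
    have a5 : 1 ≤ H₁ := by exact_mod_cast a4
    have h4 := Q2_long (fz w z) s a b₀ X M H₁ (X * M * (H₁ * √l + (H₁ : ℝ) ^ 2 / k ^ 2)) ((m : ℝ) + H) a5
      (by positivity) (by
        intro m₁ r hr hr1 hW1
        have hr' : (r : ℝ) ≤ H₁ := by exact_mod_cast hr1
        refine (h2 m₁ r hr (by linarith) (le_trans ?_ hW)).trans ?_
        · gcongr
        · gcongr) m H a3 le_rfl
    refine h4.trans ?_
    have e1 : 4 * ((H : ℝ) / H₁) ^ 2 * (X * M * (H₁ * √l + (H₁ : ℝ) ^ 2 / k ^ 2)) =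
        X * M * ((H : ℝ) ^ 2 * (4 * √l / H₁ + 4 / k ^ 2)) := by
      field_simp
    rw [e1]
    apply mul_le_mul_of_nonneg_left _ hXM
    apply mul_le_mul_of_nonneg_left _ (sq_nonneg _)
    have h5 : 4 * √l / H₁ ≤ 4 / √l := by
      rw [div_le_div_iff₀ a4 hs0]
      rw [mul_assoc, hss]
      linarith
    linarith

lemma cheb_ar (XM q θ ε eδ : ℝ) (hq : 0 < q) (he : 0 < eδ) (hθ : θ = ε * eδ ^ 2 / 64) :
    XM * (q ^ 2 * θ) / (eδ * (q / 2)) ^ 2 = ε / 16 * XM := by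
  rw [hθ]; field_simp; ring

lemma card_or (S : Finset (ℤ × ℤ)) (p q : ℤ × ℤ → Prop) [DecidablePred p] [DecidablePred q] (x y : ℝ)
    (hp : (#(S.filter p) : ℝ) ≤ x) (hq : (#(S.filter q) : ℝ) ≤ y) :
    (#(S.filter (fun s => p s ∨ q s)) : ℝ) ≤ x + y := by
  rw [filter_or]
  have h1 := card_union_le (S.filter p) (S.filter q)
  have h2 : (#(S.filter p ∪ S.filter q) : ℝ) ≤ #(S.filter p) + #(S.filter q) := by exact_mod_cast h1
  linarith

/-- the size of the values -/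
lemma val_le (a M m H X : ℕ) (b₀ b c : ℤ) (A : ℝ) (hA : 1 ≤ A) (hb : (|(b₀ : ℝ)| + M) ^ 2 ≤ a * X * A)
    (hW : (a : ℝ) * (m + H) ^ 2 ≤ X * A) (hbm : b ∈ Ioc b₀ (b₀ + M)) (hc : c ∈ Icc (-(X : ℤ)) X) (n : ℕ)
    (hn : n ∈ Ioc m (m + H)) : ((qv a b c n).natAbs : ℝ) ≤ 3 * (X * A) := by
  have hX : (0 : ℝ) ≤ X := Nat.cast_nonneg _
  have hXA : 0 ≤ (X : ℝ) * A := by positivity
  rw [mem_Ioc] at hn hbm
  rw [mem_Icc] at hc
  have hnr : (n : ℝ) ≤ m + H := by exact_mod_cast hn.2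
  have hn0 : (0 : ℝ) ≤ n := Nat.cast_nonneg _
  have ha0 : (0 : ℝ) ≤ a := Nat.cast_nonneg _
  have h1 : (a : ℝ) * (n : ℝ) ^ 2 ≤ X * A := by
    refine le_trans ?_ hW
    gcongr
  have hb1 : |(b : ℝ)| ≤ |(b₀ : ℝ)| + M := by
    have a1 : (b₀ : ℝ) ≤ b := by exact_mod_cast hbm.1.le
    have a2 : (b : ℝ) ≤ b₀ + M := by exact_mod_cast hbm.2
    have a3 := neg_abs_le (b₀ : ℝ)
    have a4 := le_abs_self (b₀ : ℝ)
    have a5 : (0 : ℝ) ≤ M := Nat.cast_nonneg _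
    rw [abs_le]; constructor <;> linarith
  have h2 : |(b : ℝ) * n| ≤ X * A := by
    refine abs_le_of_sq_le_sq ?_ hXA
    calc ((b : ℝ) * n) ^ 2 = |(b : ℝ)| ^ 2 * (n : ℝ) ^ 2 := by rw [sq_abs]; ring
      _ ≤ (|(b₀ : ℝ)| + M) ^ 2 * (n : ℝ) ^ 2 := by gcongr
      _ ≤ (a * X * A) * (n : ℝ) ^ 2 := by gcongr
      _ = (X * A) * (a * (n : ℝ) ^ 2) := by ring
      _ ≤ (X * A) * (X * A) := mul_le_mul_of_nonneg_left h1 hXA
      _ = _ := by ring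
  have h3 : |(c : ℝ)| ≤ X * A := by
    have a1 : |(c : ℝ)| ≤ X := by
      rw [abs_le]
      have b1 : (-(X : ℝ)) ≤ c := by exact_mod_cast hc.1
      have b2 : (c : ℝ) ≤ X := by exact_mod_cast hc.2
      exact ⟨b1, b2⟩
    have a2 : (X : ℝ) * 1 ≤ X * A := mul_le_mul_of_nonneg_left hA hX
    linarith
  have e : ((qv a b c n).natAbs : ℝ) = |(a : ℝ) * (n : ℝ) ^ 2 + b * n + c| := by
    rw [Nat.cast_natAbs]
    unfold qv
    push_cast
    rfl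
  rw [e]
  have h4 := abs_add_le ((a : ℝ) * (n : ℝ) ^ 2 + b * n) c
  have h5 := abs_add_le ((a : ℝ) * (n : ℝ) ^ 2) (b * n)
  have h6 : |(a : ℝ) * (n : ℝ) ^ 2| = a * (n : ℝ) ^ 2 := abs_of_nonneg (by positivity)
  rw [h6] at h5
  linarith

open Classical in
theorem eq (h1 : S_Q1) (h2 : S_Q2) (hf : S_FLQ) (h3 : S_HGQ) : S_EQ := by
  intro ε hε
  obtain ⟨ε₁, hε₁⟩ : ∃ ε₁, ε₁ = min ε 1 / 100 := ⟨_, rfl⟩
  have hmin : 0 < min ε 1 := lt_min hε one_pos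
  have he0 : 0 < ε₁ := by rw [hε₁]; positivity
  have he1 : 12 * ε₁ ≤ ε := by rw [hε₁]; have := min_le_left ε 1; linarith
  have he2 : ε₁ ≤ 1 / 100 := by rw [hε₁]; have := min_le_right ε 1; linarith
  obtain ⟨δ0, hδ0, hHG⟩ := h3 (ε / 4) (by positivity)
  obtain ⟨C1, y0, hC1, hy0, hfl⟩ := hf
  obtain ⟨b, hb1, hb2⟩ : ∃ b : ℕ, C1 ≤ b ∧ 2 * (1 / 2 : ℝ) ^ b ≤ ε₁ := by
    obtain ⟨n, hn⟩ := exists_pow_lt_of_lt_one (show (0 : ℝ) < ε₁ / 2 by positivity) (show (1 / 2 : ℝ) < 1 by norm_num)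
    refine ⟨C1 + n, by omega, ?_⟩
    have h4 : (1 / 2 : ℝ) ^ (C1 + n) ≤ (1 / 2 : ℝ) ^ n := pow_le_pow_of_le_one (by norm_num) (by norm_num) (by omega)
    linarith
  obtain ⟨u, hu⟩ : ∃ u, u = C1 * b := ⟨_, rfl⟩
  have hu1 : 1 ≤ u := by rw [hu]; exact Nat.mul_pos (by omega) (by omega)
  have hur : (0 : ℝ) < u := by exact_mod_cast hu1
  obtain ⟨θ, hθ⟩ : ∃ θ, θ = ε * (ε₁ * δ0) ^ 2 / 64 := ⟨_, rfl⟩
  have hθ0 : 0 < θ := by rw [hθ]; positivity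
  obtain ⟨T, hT, hff⟩ := mom_ff h1 θ hθ0
  refine ⟨T, by linarith, fun ρ C hρ => ?_⟩
  obtain ⟨Xg, hXg⟩ := hHG ε₁ he0 u hu1 ρ C hρ
  obtain ⟨E1, hff⟩ := hff ρ C hρ
  obtain ⟨E, hE⟩ : ∃ E, E = E1 + 1 := ⟨_, rfl⟩
  obtain ⟨B, Xa, hff⟩ := hff E (by omega)
  obtain ⟨Xb, hfz⟩ := mom_fz h2 θ hθ0 ρ C E u hρ (by omega) hu1
  obtain ⟨Xc, hVz⟩ := Run7.h285.E2.Vz_sqrt E (by omega)
  obtain ⟨Xd, hwc⟩ := wt_close (C + 1) ε₁ he0
  have hev : ∀ᶠ X : ℕ in atTop, (10000 + 16 / ε + 3 / (ε₁ * δ0) + 3 / ε₁ : ℝ) ≤ Real.log X ∧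
      ((y0 : ℝ) + 1) * Real.log (Real.log X) ^ 0 ≤ Real.log X ^ (1 / (u : ℝ)) ∧
      Real.log X ^ 5 ≤ (X : ℝ) ^ (1 : ℝ) := by
    filter_upwards [evt_log_ge _, evt_ll 0 (1 / (u : ℝ)) (y0 + 1) (by positivity),
      evt_log_pow 5 1 (by norm_num)] with X a1 a2 a3
    exact ⟨a1, a2, a3⟩
  obtain ⟨Xe, hXe⟩ := eventually_atTop.1 hev
  refine ⟨B, Xg + Xa + Xb + Xc + Xd + Xe, fun X hX b₀ a M m H ha haX hM hbX hTH hW => ?_⟩
  have hff := hff X (by omega) b₀ a M m H ha haX hM hbX hTH hW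
  have hVz := hVz X (by omega)
  have hwc := hwc X (by omega)
  obtain ⟨hl, hlu, hlX⟩ := hXe X (by omega)
  have p1 : 0 < 16 / ε := by positivity
  have p2 : 0 < 3 / (ε₁ * δ0) := by positivity
  have p3 : 0 < 3 / ε₁ := by positivity
  have hl1' : 1 ≤ Real.log X := by linarith
  have hTH' : Real.log X ≤ H := by
    have : 1 * Real.log X ≤ T * Real.log X := mul_le_mul_of_nonneg_right hT (by linarith)
    linarith
  have hM3 : (X : ℝ) ^ (1 / 3 : ℝ) ≤ M := by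
    refine le_trans ?_ hM
    exact le_mul_of_one_le_right (by positivity) (one_le_pow₀ hl1')
  have hfz := hfz X (by omega) b₀ a M m H ha haX hM3 hbX hTH' hW
  obtain ⟨BadG, hBadG, hgood⟩ := hXg X (by omega) b₀ a M ha haX hM3 hbX
  clear hXg hXe hev h1 h2 h3 hHG
  rw [pow_zero, mul_one] at hlu
  rw [Real.rpow_one] at hlX
  have hXp : 1 ≤ X := by
    rcases Nat.eq_zero_or_pos X with h | h
    · rw [h] at hl1'; norm_num at hl1'
    · exact h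
  have hX1 : (1 : ℝ) ≤ X := by exact_mod_cast hXp
  have hM0 : (0 : ℝ) < M := by
    have : 0 < (X : ℝ) ^ (1 / 3 : ℝ) := Real.rpow_pos_of_pos (by linarith) _
    linarith
  obtain ⟨w, hw⟩ : ∃ w, w = ⌊Real.log X ^ (1 / (u : ℝ))⌋₊ := ⟨_, rfl⟩
  obtain ⟨z, hz⟩ : ∃ z, z = ⌊Real.log X ^ E⌋₊ := ⟨_, rfl⟩
  rw [← hz] at hff hfz hVz
  rw [← hw] at hfz hgood
  clear hM hM3 haX
  generalize Real.log X = l at *
  have hl0 : 0 < l := by linarith
  have hwl : (w : ℝ) ≤ l ^ (1 / (u : ℝ)) := by rw [hw]; exact Nat.floor_le (by positivity)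
  have hwy : y0 ≤ w := by
    have h4 := Nat.lt_floor_add_one (l ^ (1 / (u : ℝ)))
    rw [← hw] at h4
    have h5 : (y0 : ℝ) < w := by linarith
    exact_mod_cast h5.le
  have hw2 : 2 ≤ w := by omega
  have hwu : ((w ^ (C1 * b) : ℕ) : ℝ) ≤ l := by
    rw [← hu]
    push_cast
    calc (w : ℝ) ^ u ≤ (l ^ (1 / (u : ℝ))) ^ u := pow_le_pow_left₀ (Nat.cast_nonneg _) hwl u
      _ = l := by
          rw [← Real.rpow_natCast, ← Real.rpow_mul hl0.le, one_div, inv_mul_cancel₀ hur.ne', Real.rpow_one]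
  have hwH : w ^ (C1 * b) ≤ H := by
    have : ((w ^ (C1 * b) : ℕ) : ℝ) ≤ H := hwu.trans hTH'
    exact_mod_cast this
  have hz2 : 2 ≤ z := by
    have h4 := Nat.lt_floor_add_one (l ^ E)
    rw [← hz] at h4
    have h5 : l ≤ l ^ E := le_self_pow₀ hl1' (by omega)
    have h6 : (2 : ℝ) ≤ z := by linarith
    exact_mod_cast h6
  have hX0 : (0 : ℝ) < X := by linarith
  have hH0 : (0 : ℝ) < H := by linarith
  have hXM : 0 < (X : ℝ) * M := by positivity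
  obtain ⟨S, hS⟩ : ∃ S, S = Icc (-(X : ℤ)) X ×ˢ Ioc b₀ (b₀ + M) := ⟨_, rfl⟩
  obtain ⟨lam1, hlam1⟩ : ∃ x, x = ε₁ * δ0 * ((H : ℝ) / (2 * l)) := ⟨_, rfl⟩
  obtain ⟨lam2, hlam2⟩ : ∃ x, x = ε₁ * δ0 * ((H : ℝ) / 2) := ⟨_, rfl⟩
  have hlam1p : 0 < lam1 := by rw [hlam1]; positivity
  have hlam2p : 0 < lam2 := by rw [hlam2]; positivity
  -- counting
  have c1 : (#(S.filter (fun p => p ∈ BadG)) : ℝ) ≤ ε / 4 * (X * M) := by
    have h4 : S.filter (fun p => p ∈ BadG) ⊆ BadG := by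
      intro p hp
      rw [mem_filter] at hp
      exact hp.2
    have h5 : (#(S.filter (fun p => p ∈ BadG)) : ℝ) ≤ #BadG := by exact_mod_cast card_le_card h4
    exact h5.trans hBadG
  have cff : ∀ s : ℤ, (s = 1 ∨ s = -1) →
      (#(S.filter (fun p => lam1 < |∑ n ∈ Ioc m (m + H), ff z (s * qv a p.2 p.1 n)|)) : ℝ) ≤ ε / 16 * (X * M) := by
    intro s hs
    rw [hS]
    refine (cheb (Icc (-(X : ℤ)) X) (Ioc b₀ (b₀ + M)) (fun c b => ∑ n ∈ Ioc m (m + H), ff z (s * qv a b c n))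
      lam1 _ hlam1p (hff s hs)).trans (le_of_eq ?_)
    rw [hlam1]
    have e : ε₁ * δ0 * ((H : ℝ) / (2 * l)) = (ε₁ * δ0) * ((H : ℝ) / l / 2) := by field_simp
    rw [e]
    exact cheb_ar (X * M) (H / l) θ ε (ε₁ * δ0) (by positivity) (by positivity) hθ
  have cfz : ∀ s : ℤ, (s = 1 ∨ s = -1) →
      (#(S.filter (fun p => lam2 < |∑ n ∈ Ioc m (m + H), fz w z (s * qv a p.2 p.1 n)|)) : ℝ) ≤ ε / 16 * (X * M) := by
    intro s hs
    rw [hS]
    refine (cheb (Icc (-(X : ℤ)) X) (Ioc b₀ (b₀ + M)) (fun c b => ∑ n ∈ Ioc m (m + H), fz w z (s * qv a b c n))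
      lam2 _ hlam2p (hfz s hs)).trans (le_of_eq ?_)
    rw [hlam2]
    exact cheb_ar (X * M) H θ ε (ε₁ * δ0) hH0 (by positivity) hθ
  have cnn : (#(S.filter (fun p => (H : ℝ) / l ^ 4 < (nn (qv a p.2 p.1) m H ((X : ℝ) / l ^ 6) : ℝ))) : ℝ) ≤
      ε / 4 * (X * M) := by
    rw [hS]
    refine (near (Icc (-(X : ℤ)) X) a b₀ M m H ((X : ℝ) / l ^ 6) ((H : ℝ) / l ^ 4) (by positivity) (by positivity)).trans ?_
    have e : (M : ℝ) * (H * (2 * ((X : ℝ) / l ^ 6) + 1)) / ((H : ℝ) / l ^ 4) = M * (2 * X / l ^ 2 + l ^ 4) := by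
      field_simp
    rw [e]
    have h4 : 16 / ε ≤ l := by linarith
    rw [div_le_iff₀ hε] at h4
    have h5 : 2 * X / l ^ 2 ≤ ε / 8 * X := by
      rw [div_le_iff₀ (by positivity)]
      have h6 : l ≤ l ^ 2 := le_self_pow₀ hl1' (by norm_num)
      have h7 : 16 ≤ l ^ 2 * ε := h4.trans (mul_le_mul_of_nonneg_right h6 hε.le)
      nlinarith
    have h6 : l ^ 4 ≤ ε / 8 * X := by
      have h7 : 1 ≤ ε / 8 * l := by linarith
      calc l ^ 4 = 1 * l ^ 4 := (one_mul _).symm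
        _ ≤ (ε / 8 * l) * l ^ 4 := mul_le_mul_of_nonneg_right h7 (by positivity)
        _ = ε / 8 * l ^ 5 := by ring
        _ ≤ ε / 8 * X := mul_le_mul_of_nonneg_left hlX (by positivity)
    calc (M : ℝ) * (2 * X / l ^ 2 + l ^ 4) ≤ M * (ε / 8 * X + ε / 8 * X) := mul_le_mul_of_nonneg_left (by linarith) hM0.le
      _ = _ := by ring
  have c2 := card_or S _ _ _ _ c1 (card_or S _ _ _ _ (cff 1 (Or.inl rfl)) (card_or S _ _ _ _ (cff (-1) (Or.inr rfl))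
    (card_or S _ _ _ _ (cfz 1 (Or.inl rfl)) (card_or S _ _ _ _ (cfz (-1) (Or.inr rfl)) cnn))))
  refine ⟨_, ?_, c2.trans ?_, ?_⟩
  · rw [← hS]; exact filter_subset _ _
  · have : 0 ≤ ε * ((X : ℝ) * M) := by positivity
    linarith
  · intro c hc b' hb' hbad hloc
    rw [mem_filter] at hbad
    push Not at hbad
    obtain ⟨g1, g2, g3, g4, g5, g6⟩ := hbad (by rw [hS]; exact mem_product.2 ⟨hc, hb'⟩)
    simp only at g1 g2 g3 g4 g5 g6
    obtain ⟨hsq, h, hδh, hlim, hhw⟩ := hgood c hc b' hb' g1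
    have hh0 : 0 < h := by linarith
    refine ⟨hsq, h, hh0, hlim, ?_⟩
    have hP0 : 0 ≤ CF a b' c w := by
      have h4 := (abs_le.1 hhw).1
      have h5 : ε₁ * h ≤ 1 / 100 * h := mul_le_mul_of_nonneg_right he2 hh0.le
      linarith
    have hfl1 := hfl b hb1 w hwy H hwH a b' c m (by exact_mod_cast ha) hloc
    have hQ : |∑ n ∈ Ioc m (m + H), lamz w (qv a b' c n).natAbs - H * (2 * CF a b' c w)| ≤
        ε₁ * (2 * CF a b' c w) * H := by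
      refine hfl1.trans ?_
      apply mul_le_mul_of_nonneg_right _ hH0.le
      exact mul_le_mul_of_nonneg_right hb2 (by positivity)
    have hVzl : (Vz z)⁻¹ ≤ l := by
      have h4 : √l ≤ l := by rw [Real.sqrt_le_left hl0.le]; nlinarith
      have h5 := inv_pos.2 (Pool.Agent.TH892.OW.Vz_pos z)
      linarith
    have hcomb := comb w z hw2 hz2 (qv a b' c) m H l (2 * h) δ0 ε₁ ((X : ℝ) / l ^ 6) ((H : ℝ) / l ^ 4)
      (2 * CF a b' c w) hl1' he0 he2 (by linarith) (by linarith)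
      (by rw [← hlam1]; exact g2) (by rw [← hlam1]; exact g3) (by rw [← hlam2]; exact g4) (by rw [← hlam2]; exact g5) g6
      (by
        have h4 : 3 / (ε₁ * δ0) ≤ l := by linarith
        rw [div_le_iff₀ (by positivity)] at h4
        have h5 : l ≤ l ^ 2 := le_self_pow₀ hl1' (by norm_num)
        have h6 : 3 ≤ ε₁ * δ0 * l ^ 2 := by
          have := mul_le_mul_of_nonneg_left h5 (show 0 ≤ ε₁ * δ0 by positivity)
          linarith
        calc 3 * ((H : ℝ) / l ^ 4) * (Vz z)⁻¹ ≤ 3 * ((H : ℝ) / l ^ 4) * l := mul_le_mul_of_nonneg_left hVzl (by positivity)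
          _ = 3 * ((H : ℝ) / l ^ 3) := by field_simp
          _ ≤ (ε₁ * δ0 * l ^ 2) * ((H : ℝ) / l ^ 3) := mul_le_mul_of_nonneg_right h6 (by positivity)
          _ = ε₁ * δ0 * ((H : ℝ) / l) := by field_simp)
      (by
        have h4 : 3 / ε₁ ≤ l := by linarith
        rw [div_le_iff₀ (by positivity)] at h4
        have h5 : l ≤ l ^ 3 := le_self_pow₀ hl1' (by norm_num)
        have h6 : 3 ≤ ε₁ * l ^ 3 := by
          have := mul_le_mul_of_nonneg_left h5 he0.le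
          linarith
        calc 3 * ((H : ℝ) / l ^ 4) ≤ (ε₁ * l ^ 3) * ((H : ℝ) / l ^ 4) := mul_le_mul_of_nonneg_right h6 (by positivity)
          _ = ε₁ * ((H : ℝ) / l) := by field_simp)
      (by
        intro n hn hκ
        refine hwc _ hκ ((val_le a M m H X b₀ b' c (l ^ C) (one_le_pow₀ hl1') hbX hW hb' hc n hn).trans ?_)
        have h10 : (X : ℝ) * l ^ (C + 1) = l * (X * l ^ C) := by ring
        rw [h10]
        exact mul_le_mul_of_nonneg_right (by linarith) (by positivity))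
      (by
        have e : 2 * CF a b' c w - 2 * h = 2 * (CF a b' c w - h) := by ring
        rw [e, abs_mul, abs_of_pos (by norm_num : (0 : ℝ) < 2)]
        linarith) hQ
    have e1 : (∑ n ∈ Ioc m (m + H), wt (qv a b' c n).natAbs) = W a b' c m H := rfl
    rw [e1] at hcomb
    refine hcomb.trans ?_
    have hWt : 0 ≤ W a b' c m H := by
      unfold W
      exact sum_nonneg fun _ _ => wt_nonneg _
    exact mul_le_mul_of_nonneg_right he1 (by positivity)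

end Run7.h285.Q
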