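import Pool.Agent.Run7.h285.Q.EQ
import Pool.Agent.Run7.h285.X.Max2

/-!
# Project CRQ: all scales at once, first part
-/

set_option autoImplicit false

namespace Run7.h285.Q

open Finset Filter Topology
open Pool.Agent.H373R2.T7 (pz Vz lamz mem_pz Vz_ge Vz_inv_le Vz_le_one Vz_inv_small)
open Pool.Agent.TH892.SW (ff ffn wt wt_nonneg wt_le)
open Pool.Agent.TH892.OW (fz lz evt_ll)
open Run7.h285.E3 (wt_close)
open Pool.Agent.W468.ConjF (CF)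
open Pool.Agent.H442R2.EHI (evt_log_pow evt_log_ge)

/-- the second moments of `ff`, decreasing in `H` -/
theorem mom_ffM (h1 : S_Q1) : ∃ K₀ : ℝ, 1 ≤ K₀ ∧ ∀ (ρ : ℝ) (C : ℕ), 0 < ρ → ∃ E1 : ℕ, ∀ E : ℕ, E1 ≤ E →
    ∃ B X₀ : ℕ, ∀ X : ℕ, X₀ ≤ X → ∀ (b₀ : ℤ) (a M m H : ℕ), 1 ≤ a → (a : ℝ) ≤ (X : ℝ) ^ (1 - ρ) →
      (X : ℝ) ^ (1 / 3 : ℝ) * Real.log X ^ B ≤ M → (|(b₀ : ℝ)| + M) ^ 2 ≤ a * X * Real.log X ^ C →
      Real.log X ≤ H → (a : ℝ) * (m + H) ^ 2 ≤ X * Real.log X ^ C → ∀ s : ℤ, (s = 1 ∨ s = -1) →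
      Q2 (ff ⌊Real.log X ^ E⌋₊) s a b₀ X M m H ≤
        X * M * (((H : ℝ) / Real.log X) ^ 2 * (K₀ * (Real.log X / H + 1 / Real.log X ^ 2))) := by
  obtain ⟨K₀, hK, h1⟩ := h1
  refine ⟨12 * K₀, by linarith, fun ρ C hρ => ?_⟩
  obtain ⟨E1, h1⟩ := h1 ρ 4 C 3 hρ
  refine ⟨E1, fun E hE => ?_⟩
  obtain ⟨B, X1, h1⟩ := h1 E hE
  obtain ⟨X2, hX2⟩ := eventually_atTop.1 (evt_log_ge 10000)
  refine ⟨B, max X1 X2, fun X hX b₀ a M m H ha haX hM hb hT hW s hs => ?_⟩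
  have hl := hX2 X (le_trans (le_max_right _ _) hX)
  have h2 := fun m₁ r hr hr3 hW1 => h1 X (le_trans (le_max_left _ _) hX) s b₀ a M m₁ r hs ha haX hr hr3 hM hb hW1
  clear h1 hX2 hX
  generalize Real.log X = l at *
  have hl0 : 0 < l := by linarith
  have hl1 : 1 ≤ l := by linarith
  have hXM : 0 ≤ (X : ℝ) * M := by positivity
  have hHr : (0 : ℝ) < H := by linarith
  have hH1 : 1 ≤ H := by exact_mod_cast hHr
  rcases le_or_gt (H : ℝ) (l ^ 3) with h3 | h3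
  · refine (h2 m H hH1 h3 hW).trans ?_
    apply mul_le_mul_of_nonneg_left _ hXM
    have e1 : ((H : ℝ) / l) ^ 2 * (12 * K₀ * (l / H + 1 / l ^ 2)) =
        12 * (K₀ * H / l) + 12 * K₀ * ((H : ℝ) ^ 2 / l ^ 4) := by
      field_simp
    rw [e1]
    have h4 : 0 ≤ K₀ * H / l := by positivity
    have h5 : 0 ≤ (H : ℝ) ^ 2 / l ^ 4 := by positivity
    nlinarith
  · obtain ⟨H₁, hH₁⟩ : ∃ H₁, H₁ = ⌊l ^ 3⌋₊ := ⟨_, rfl⟩
    have a1 : (H₁ : ℝ) ≤ l ^ 3 := by rw [hH₁]; exact Nat.floor_le (by positivity)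
    have a2 : l ^ 3 / 2 ≤ (H₁ : ℝ) := by
      have h4 := Nat.lt_floor_add_one (l ^ 3)
      rw [← hH₁] at h4
      have h5 : (2 : ℝ) ≤ l ^ 3 := by
        have := le_self_pow₀ hl1 (n := 3) (by norm_num)
        linarith
      linarith
    have a3 : H₁ ≤ H := by
      have : (H₁ : ℝ) ≤ H := by linarith
      exact_mod_cast this
    have hl3 : 0 < l ^ 3 := by positivity
    have a4 : (0 : ℝ) < H₁ := by linarith
    have a5 : 1 ≤ H₁ := by exact_mod_cast a4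
    have h4 := Q2_long (ff ⌊l ^ E⌋₊) s a b₀ X M H₁ (X * M * (K₀ * H₁ / l + (H₁ : ℝ) ^ 2 / l ^ 4)) ((m : ℝ) + H) a5
      (by positivity) (by
        intro m₁ r hr hr1 hW1
        have hr' : (r : ℝ) ≤ H₁ := by exact_mod_cast hr1
        refine (h2 m₁ r hr (by linarith) (le_trans ?_ hW)).trans ?_
        · gcongr
        · gcongr) m H a3 le_rfl
    refine h4.trans ?_
    have e1 : 4 * ((H : ℝ) / H₁) ^ 2 * (X * M * (K₀ * H₁ / l + (H₁ : ℝ) ^ 2 / l ^ 4)) =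
        X * M * (((H : ℝ) / l) ^ 2 * (4 * K₀ * (l / H₁) + 4 / l ^ 2)) := by
      field_simp
    rw [e1]
    apply mul_le_mul_of_nonneg_left _ hXM
    apply mul_le_mul_of_nonneg_left _ (sq_nonneg _)
    have h5 : l / H₁ ≤ 2 / l ^ 2 := by
      rw [div_le_div_iff₀ a4 (by positivity)]
      have : l * l ^ 2 = l ^ 3 := by ring
      rw [this]
      linarith
    have h6 : 4 * K₀ * (l / H₁) ≤ 4 * K₀ * (2 / l ^ 2) := mul_le_mul_of_nonneg_left h5 (by positivity)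
    have h7 : 4 * K₀ * (2 / l ^ 2) = 8 * K₀ * (1 / l ^ 2) := by ring
    have h8 : 4 / l ^ 2 = 4 * (1 / l ^ 2) := by ring
    have h9 : 0 ≤ 1 / l ^ 2 := by positivity
    have h10 : 0 ≤ l / H := by positivity
    rw [h8]
    rw [h7] at h6
    nlinarith

/-- the second moments of `fz` -/
theorem mom_fzM (h1 : S_Q2) (ρ : ℝ) (C D E u : ℕ) (hρ : 0 < ρ) (hE : 1 ≤ E) (hu : 1 ≤ u) :
    ∃ X₀ : ℕ, ∀ X : ℕ, X₀ ≤ X → ∀ (b₀ : ℤ) (a M m H : ℕ), 1 ≤ a → (a : ℝ) ≤ (X : ℝ) ^ (1 - ρ) →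
      (X : ℝ) ^ (1 / 3 : ℝ) ≤ M → (|(b₀ : ℝ)| + M) ^ 2 ≤ a * X * Real.log X ^ C →
      Real.log X ≤ H → (H : ℝ) ≤ Real.log X ^ D → (a : ℝ) * (m + H) ^ 2 ≤ X * Real.log X ^ C → ∀ s : ℤ, (s = 1 ∨ s = -1) →
      Q2 (fz ⌊Real.log X ^ (1 / (u : ℝ))⌋₊ ⌊Real.log X ^ E⌋₊) s a b₀ X M m H ≤
        X * M * ((H : ℝ) ^ 2 * (1 / √(Real.log X) + 1 / Real.log (Real.log X) ^ 2)) := by
  obtain ⟨X1, h1⟩ := h1 ρ C D E u hρ hE hu
  obtain ⟨X2, hX2⟩ := eventually_atTop.1 (evt_log_ge 10000)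
  refine ⟨max X1 X2, fun X hX b₀ a M m H ha haX hM hb hT hHD hW s hs => ?_⟩
  have hl := hX2 X (le_trans (le_max_right _ _) hX)
  have h2 := h1 X (le_trans (le_max_left _ _) hX) s b₀ a M m H hs ha haX
    (by have : (0 : ℝ) < H := by linarith
        exact_mod_cast this) hHD hM hb hW
  refine h2.trans ?_
  clear h1 hX2 hX h2
  generalize Real.log X = l at *
  have hl0 : 0 < l := by linarith
  have hs0 : 0 < √l := Real.sqrt_pos.2 hl0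
  have hss : √l * √l = l := Real.mul_self_sqrt hl0.le
  have hXM : 0 ≤ (X : ℝ) * M := by positivity
  apply mul_le_mul_of_nonneg_left _ hXM
  have hHr : (0 : ℝ) < H := by linarith
  have h4 : (H : ℝ) * √l ≤ (H : ℝ) ^ 2 * (1 / √l) := by
    rw [mul_one_div, le_div_iff₀ hs0]
    have : (H : ℝ) * √l * √l = H * l := by rw [mul_assoc, hss]
    rw [this]
    nlinarith
  have h5 : (H : ℝ) ^ 2 / Real.log l ^ 2 = (H : ℝ) ^ 2 * (1 / Real.log l ^ 2) := by ring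
  rw [h5]
  linarith

/-- one pair at one scale -/
lemma single (w z : ℕ) (hw : 2 ≤ w) (hz : 2 ≤ z) (y : ℕ → ℤ) (m H : ℕ) (l h δ0 ε κ N V : ℝ) (hl : 1 ≤ l) (hε : 0 < ε)
    (hε1 : ε ≤ 1 / 100) (hh : 0 < h) (hδh : δ0 ≤ h)
    (hG1 : |∑ n ∈ Ioc m (m + H), ff z (1 * y n)| ≤ ε * δ0 * (H / (2 * l)))
    (hG2 : |∑ n ∈ Ioc m (m + H), ff z (-1 * y n)| ≤ ε * δ0 * (H / (2 * l)))
    (hF1 : |∑ n ∈ Ioc m (m + H), fz w z (1 * y n)| ≤ ε * δ0 * (H / 2))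
    (hF2 : |∑ n ∈ Ioc m (m + H), fz w z (-1 * y n)| ≤ ε * δ0 * (H / 2))
    (hN : (nn y m H κ : ℝ) ≤ N) (hN1 : 3 * N * (Vz z)⁻¹ ≤ ε * δ0 * (H / l)) (hN2 : 3 * N ≤ ε * (H / l))
    (hwt : ∀ n ∈ Ioc m (m + H), κ ≤ ((y n).natAbs : ℝ) →
      |wt (y n).natAbs - 1 / l| ≤ ε * (1 / l))
    (hV : |V - h| ≤ ε * h)
    (hQ : |∑ n ∈ Ioc m (m + H), lamz w (y n).natAbs - H * V| ≤ ε * V * H) :
    |(#((Ioc m (m + H)).filter (fun n : ℕ => (y n).natAbs.Prime)) : ℝ) - h * ∑ n ∈ Ioc m (m + H), wt (y n).natAbs| ≤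
      12 * ε * (h * ∑ n ∈ Ioc m (m + H), wt (y n).natAbs) ∧
    |∑ n ∈ Ioc m (m + H), wt (y n).natAbs - H / l| ≤ 2 * ε * (H / l) := by
  refine ⟨comb w z hw hz y m H l h δ0 ε κ N V hl hε hε1 hh hδh hG1 hG2 hF1 hF2 hN hN1 hN2 hwt hV hQ, ?_⟩
  have hl0 : 0 < l := by linarith
  have e4 := sum_near y m H κ l ε 1 (fun _ => 1) (fun _ => zero_le_one) (fun _ => le_rfl) hl hε.le hwt
  have e5 : ∑ n ∈ Ioc m (m + H), (1 : ℝ) = H := by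
    rw [sum_const, Nat.card_Ioc, nsmul_eq_mul, mul_one, Nat.add_sub_cancel_left]
  have e6 : ∑ n ∈ Ioc m (m + H), 1 * wt (y n).natAbs = ∑ n ∈ Ioc m (m + H), wt (y n).natAbs :=
    sum_congr rfl fun n _ => one_mul _
  rw [e5, e6] at e4
  have e8 : (1 : ℝ) / l * H = H / l := by ring
  have e9 : ε * (1 / l) * (H : ℝ) = ε * (H / l) := by ring
  rw [e8, e9] at e4
  linarith

/-- the cut at `z` from the cut at `w` at one scale -/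
lemma cut_z (w z : ℕ) (hw : 2 ≤ w) (hz : 2 ≤ z) (y : ℕ → ℤ) (m H : ℕ) (h δ0 ε V V' : ℝ) (hH : 1 ≤ H) (hε : 0 < ε)
    (hε1 : ε ≤ 1 / 100) (hh : 0 < h) (hδh : δ0 ≤ h)
    (hF1 : |∑ n ∈ Ioc m (m + H), fz w z (1 * y n)| ≤ ε * δ0 * (H / 2))
    (hF2 : |∑ n ∈ Ioc m (m + H), fz w z (-1 * y n)| ≤ ε * δ0 * (H / 2))
    (hV : |V - h| ≤ ε * h)
    (hQ : |∑ n ∈ Ioc m (m + H), lamz w (y n).natAbs - H * V| ≤ ε * V * H)
    (hQ' : |∑ n ∈ Ioc m (m + H), lamz z (y n).natAbs - H * V'| ≤ ε * V' * H) : |V' - h| ≤ 5 * ε * h := by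
  have hH0 : (0 : ℝ) < H := by exact_mod_cast hH
  have e2 : (∑ n ∈ Ioc m (m + H), fz w z (1 * y n) + ∑ n ∈ Ioc m (m + H), fz w z (-1 * y n)) =
      ∑ n ∈ Ioc m (m + H), lamz z (y n).natAbs - ∑ n ∈ Ioc m (m + H), lamz w (y n).natAbs := by
    rw [← sum_add_distrib, ← sum_sub_distrib]
    refine sum_congr rfl fun n _ => ?_
    rw [Run7.h285.E3.fz_two w z hw hz]
  generalize ∑ n ∈ Ioc m (m + H), lamz z (y n).natAbs = Qz at *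
  generalize ∑ n ∈ Ioc m (m + H), lamz w (y n).natAbs = Qw at *
  have h1 := abs_add_le (∑ n ∈ Ioc m (m + H), fz w z (1 * y n)) (∑ n ∈ Ioc m (m + H), fz w z (-1 * y n))
  rw [e2] at h1
  have h2 : |Qz - Qw| ≤ ε * h * H := by
    have : ε * δ0 * (H : ℝ) ≤ ε * h * H := by gcongr
    linarith
  have hV2 := abs_le.1 hV
  have q1 := abs_le.1 hQ
  have q2 := abs_le.1 hQ'
  have q3 := abs_le.1 h2
  have hV'0 : 0 ≤ V' := by
    have h3 := le_trans (abs_nonneg _) hQ'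
    by_contra hc
    push Not at hc
    have : ε * V' * H < 0 := mul_neg_of_neg_of_pos (mul_neg_of_pos_of_neg hε hc) hH0
    linarith
  have hVu : V ≤ (1 + ε) * h := by linarith
  have hVl : (1 - ε) * h ≤ V := by linarith
  -- (1 - ε) V' ≤ (1 + ε) V + ε h
  have r1 : (1 - ε) * V' ≤ (1 + ε) * V + ε * h := by
    have : ((1 - ε) * V') * H ≤ ((1 + ε) * V + ε * h) * H := by linarith
    exact le_of_mul_le_mul_right this hH0
  have r2 : (1 - ε) * V - ε * h ≤ (1 + ε) * V' := by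
    have : ((1 - ε) * V - ε * h) * H ≤ ((1 + ε) * V') * H := by linarith
    exact le_of_mul_le_mul_right this hH0
  have hεh : 0 < ε * h := by positivity
  have hε2 : ε * (ε * h) ≤ 1 / 100 * (ε * h) := mul_le_mul_of_nonneg_right hε1 hεh.le
  have r3 : (1 - ε) * V' ≤ h + 4 * ε * h := by
    have : (1 + ε) * V ≤ (1 + ε) * ((1 + ε) * h) := mul_le_mul_of_nonneg_left hVu (by linarith)
    nlinarith
  have r4 : h - 4 * ε * h ≤ (1 + ε) * V' := by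
    have : (1 - ε) * ((1 - ε) * h) ≤ (1 - ε) * V := mul_le_mul_of_nonneg_left hVl (by linarith)
    nlinarith
  rw [abs_le]
  constructor
  · by_contra hc
    push Not at hc
    have : (1 + ε) * V' < (1 + ε) * (h - 5 * ε * h) := by
      apply mul_lt_mul_of_pos_left _ (by linarith)
      linarith
    nlinarith
  · by_contra hc
    push Not at hc
    have : (1 - ε) * (h + 5 * ε * h) < (1 - ε) * V' := by
      apply mul_lt_mul_of_pos_left _ (by linarith)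
      linarith
    nlinarith

lemma fz_self (z : ℕ) (y : ℤ) : fz z z y = 0 := by
  unfold fz
  ring


/-- one pair at one scale, small (cut at `w`) or large (cut at `z`) -/
theorem good_scale (w z u D : ℕ) (hw : 2 ≤ w) (hz : 2 ≤ z) (y : ℕ → ℤ) (m G HD : ℕ) (l h δ0 e κ V V' : ℝ)
    (hl : 1 ≤ l) (he : 0 < e) (he2 : 5 * e ≤ 1 / 100) (hh : 0 < h) (hδ : 0 < δ0) (hδh : δ0 ≤ h) (hlG : l ≤ G)
    (hlHD : l ≤ HD)
    (k1 : |∑ n ∈ Ioc m (m + G), ff z (1 * y n)| ≤ e * δ0 * (G / (2 * l)))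
    (k2 : |∑ n ∈ Ioc m (m + G), ff z (-1 * y n)| ≤ e * δ0 * (G / (2 * l)))
    (k3 : (nn y m G κ : ℝ) ≤ G / l ^ 4) (hN1 : 3 * ((G : ℝ) / l ^ 4) * (Vz z)⁻¹ ≤ e * δ0 * (G / l))
    (hN2 : 3 * ((G : ℝ) / l ^ 4) ≤ e * (G / l))
    (hwt : ∀ n ∈ Ioc m (m + G), κ ≤ ((y n).natAbs : ℝ) → |wt (y n).natAbs - 1 / l| ≤ e * (1 / l))
    (hV : |V - h| ≤ e * h)
    (hQ : ∀ G' : ℕ, l ≤ G' → |∑ n ∈ Ioc m (m + G'), lamz w (y n).natAbs - G' * V| ≤ e * V * G')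
    (hQz : ∀ G' : ℕ, 1 ≤ G' → u ≤ G' → |∑ n ∈ Ioc m (m + G'), lamz z (y n).natAbs - G' * V'| ≤ e * V' * G')
    (huHD : u ≤ HD)
    (hsm : (G : ℝ) ≤ l ^ D → |∑ n ∈ Ioc m (m + G), fz w z (1 * y n)| ≤ e * δ0 * (G / 2) ∧
      |∑ n ∈ Ioc m (m + G), fz w z (-1 * y n)| ≤ e * δ0 * (G / 2))
    (hlg : l ^ D < (G : ℝ) → HD ≤ G ∧ |∑ n ∈ Ioc m (m + HD), fz w z (1 * y n)| ≤ e * δ0 * (HD / 2) ∧
      |∑ n ∈ Ioc m (m + HD), fz w z (-1 * y n)| ≤ e * δ0 * (HD / 2)) :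
    |(#((Ioc m (m + G)).filter (fun n : ℕ => (y n).natAbs.Prime)) : ℝ) - h * ∑ n ∈ Ioc m (m + G), wt (y n).natAbs| ≤
      60 * e * (h * ∑ n ∈ Ioc m (m + G), wt (y n).natAbs) ∧
    |∑ n ∈ Ioc m (m + G), wt (y n).natAbs - G / l| ≤ 10 * e * (G / l) := by
  have hl0 : 0 < l := by linarith
  have hG0 : (0 : ℝ) < G := by linarith
  have hG1 : 1 ≤ G := by exact_mod_cast hG0
  have hW0 : 0 ≤ ∑ n ∈ Ioc m (m + G), wt (y n).natAbs := sum_nonneg fun _ _ => wt_nonneg _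
  have hhW : 0 ≤ h * ∑ n ∈ Ioc m (m + G), wt (y n).natAbs := mul_nonneg hh.le hW0
  have hGl : 0 ≤ (G : ℝ) / l := by positivity
  rcases le_or_gt (G : ℝ) (l ^ D) with hGD | hGD
  · obtain ⟨k4, k5⟩ := hsm hGD
    have h4 := single w z hw hz y m G l h δ0 e κ ((G : ℝ) / l ^ 4) V hl he (by linarith) hh hδh k1 k2 k4 k5 k3 hN1 hN2
      hwt hV (hQ G hlG)
    refine ⟨h4.1.trans ?_, h4.2.trans ?_⟩
    · exact mul_le_mul_of_nonneg_right (by linarith) hhW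
    · exact mul_le_mul_of_nonneg_right (by linarith) hGl
  · obtain ⟨hHDG, k4, k5⟩ := hlg hGD
    clear hsm hlg
    have hHD1 : 1 ≤ HD := by
      have : (0 : ℝ) < HD := by linarith
      exact_mod_cast this
    have hVZ := cut_z w z hw hz y m HD h δ0 e V V' hHD1 he (by linarith) hh hδh k4 k5 hV (hQ HD hlHD) (hQz HD hHD1 huHD)
    have hF0 : ∀ s : ℤ, |∑ n ∈ Ioc m (m + G), fz z z (s * y n)| ≤ 5 * e * δ0 * (G / 2) := by
      intro s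
      have : ∑ n ∈ Ioc m (m + G), fz z z (s * y n) = 0 := sum_eq_zero fun n _ => fz_self z _
      rw [this, abs_zero]
      positivity
    have hFz' := hQz G hG1 (huHD.trans hHDG)
    have hCz0 : 0 ≤ V' := by
      have h6 := (abs_le.1 hVZ).1
      have h7 : 5 * e * h ≤ 1 / 100 * h := mul_le_mul_of_nonneg_right he2 hh.le
      linarith
    have hm5 : ∀ x : ℝ, 0 ≤ x → e * x ≤ 5 * e * x := fun x hx => mul_le_mul_of_nonneg_right (by linarith) hx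
    have g1 : 0 ≤ δ0 * ((G : ℝ) / (2 * l)) := by positivity
    have g2 : 0 ≤ δ0 * ((G : ℝ) / l) := by positivity
    have g3 : 0 ≤ V' * (G : ℝ) := by positivity
    have k1' := k1.trans (show e * δ0 * ((G : ℝ) / (2 * l)) ≤ 5 * e * δ0 * (G / (2 * l)) by
      have := hm5 _ g1
      rw [mul_assoc e, mul_assoc (5 * e)]; exact this)
    have k2' := k2.trans (show e * δ0 * ((G : ℝ) / (2 * l)) ≤ 5 * e * δ0 * (G / (2 * l)) by
      have := hm5 _ g1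
      rw [mul_assoc e, mul_assoc (5 * e)]; exact this)
    have hN1' := hN1.trans (show e * δ0 * ((G : ℝ) / l) ≤ 5 * e * δ0 * (G / l) by
      have := hm5 _ g2
      rw [mul_assoc e, mul_assoc (5 * e)]; exact this)
    have hFz'' := hFz'.trans (show e * V' * (G : ℝ) ≤ 5 * e * V' * G by
      have := hm5 _ g3
      rw [mul_assoc e, mul_assoc (5 * e)]; exact this)
    have h4 := single z z hz hz y m G l h δ0 (5 * e) κ ((G : ℝ) / l ^ 4) V' hl (by linarith) he2 hh hδh k1' k2' (hF0 1)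
      (hF0 (-1)) k3 hN1' (hN2.trans (hm5 _ hGl)) (fun n hn hκ => (hwt n hn hκ).trans (hm5 _ (by positivity))) hVZ hFz''
    refine ⟨h4.1.trans ?_, h4.2.trans ?_⟩
    · exact mul_le_mul_of_nonneg_right (by linarith) hhW
    · exact mul_le_mul_of_nonneg_right (by linarith) hGl

/-- the bad pairs at one scale, first kind -/
def bad1 (a m z : ℕ) (l e κ : ℝ) (H : ℕ) (p : ℤ × ℤ) : Prop :=
  (e * ((H : ℝ) / (2 * l)) < |∑ n ∈ Ioc m (m + H), ff z (1 * qv a p.2 p.1 n)| ∨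
    e * ((H : ℝ) / (2 * l)) < |∑ n ∈ Ioc m (m + H), ff z (-1 * qv a p.2 p.1 n)|) ∨
  (H : ℝ) / l ^ 4 < (nn (qv a p.2 p.1) m H κ : ℝ)

/-- the bad pairs at one scale, second kind -/
def bad2 (a m w z : ℕ) (e : ℝ) (H : ℕ) (p : ℤ × ℤ) : Prop :=
  e * ((H : ℝ) / 2) < |∑ n ∈ Ioc m (m + H), fz w z (1 * qv a p.2 p.1 n)| ∨
    e * ((H : ℝ) / 2) < |∑ n ∈ Ioc m (m + H), fz w z (-1 * qv a p.2 p.1 n)|

open Classical in
lemma count1 (a : ℕ) (b₀ : ℤ) (X M m z H : ℕ) (l e F : ℝ) (hl : 1 ≤ l) (hH : (0 : ℝ) < H) (he : 0 < e)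
    (hM : (0 : ℝ) < M) (hX : l ^ 6 ≤ X)
    (hm : ∀ s : ℤ, (s = 1 ∨ s = -1) → Q2 (ff z) s a b₀ X M m H ≤ X * M * (((H : ℝ) / l) ^ 2 * F)) :
    (#((Icc (-(X : ℤ)) X ×ˢ Ioc b₀ (b₀ + M)).filter (bad1 a m z l e ((X : ℝ) / l ^ 6) H)) : ℝ) ≤
      X * M * (8 / e ^ 2 * F + 3 / l ^ 2) := by
  have hl0 : 0 < l := by linarith
  have hlam1p : 0 < e * ((H : ℝ) / (2 * l)) := by positivity
  have cff : ∀ s : ℤ, (s = 1 ∨ s = -1) →
      (#((Icc (-(X : ℤ)) X ×ˢ Ioc b₀ (b₀ + M)).filter (fun p => e * ((H : ℝ) / (2 * l)) <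
        |∑ n ∈ Ioc m (m + H), ff z (s * qv a p.2 p.1 n)|)) : ℝ) ≤ X * M * (4 / e ^ 2 * F) := by
    intro s hs
    refine (cheb (Icc (-(X : ℤ)) X) (Ioc b₀ (b₀ + M)) (fun c b => ∑ n ∈ Ioc m (m + H), ff z (s * qv a b c n))
      _ _ hlam1p (hm s hs)).trans (le_of_eq ?_)
    field_simp
    ring
  have cnn : (#((Icc (-(X : ℤ)) X ×ˢ Ioc b₀ (b₀ + M)).filter (fun p => (H : ℝ) / l ^ 4 <
      (nn (qv a p.2 p.1) m H ((X : ℝ) / l ^ 6) : ℝ))) : ℝ) ≤ X * M * (3 / l ^ 2) := by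
    refine (near (Icc (-(X : ℤ)) X) a b₀ M m H ((X : ℝ) / l ^ 6) ((H : ℝ) / l ^ 4) (by positivity) (by positivity)).trans ?_
    have e' : (M : ℝ) * (H * (2 * ((X : ℝ) / l ^ 6) + 1)) / ((H : ℝ) / l ^ 4) = M * (2 * X / l ^ 2 + l ^ 4) := by
      field_simp
    rw [e']
    have h6 : l ^ 4 ≤ X / l ^ 2 := by
      rw [le_div_iff₀ (by positivity), ← pow_add]
      exact hX
    calc (M : ℝ) * (2 * X / l ^ 2 + l ^ 4) ≤ M * (2 * X / l ^ 2 + X / l ^ 2) :=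
          mul_le_mul_of_nonneg_left (by linarith) hM.le
      _ = _ := by ring
  have h4 := card_or _ _ _ _ _ (card_or _ _ _ _ _ (cff 1 (Or.inl rfl)) (cff (-1) (Or.inr rfl))) cnn
  refine le_trans (le_of_eq ?_) (h4.trans (le_of_eq ?_))
  · congr 2
    ext p
    simp only [mem_filter, bad1]
  · ring

open Classical in
lemma count2 (a : ℕ) (b₀ : ℤ) (X M m w z H : ℕ) (e F : ℝ) (hH : (0 : ℝ) < H) (he : 0 < e)
    (hm : ∀ s : ℤ, (s = 1 ∨ s = -1) → Q2 (fz w z) s a b₀ X M m H ≤ X * M * ((H : ℝ) ^ 2 * F)) :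
    (#((Icc (-(X : ℤ)) X ×ˢ Ioc b₀ (b₀ + M)).filter (bad2 a m w z e H)) : ℝ) ≤ X * M * (8 / e ^ 2 * F) := by
  have hlam1p : 0 < e * ((H : ℝ) / 2) := by positivity
  have cff : ∀ s : ℤ, (s = 1 ∨ s = -1) →
      (#((Icc (-(X : ℤ)) X ×ˢ Ioc b₀ (b₀ + M)).filter (fun p => e * ((H : ℝ) / 2) <
        |∑ n ∈ Ioc m (m + H), fz w z (s * qv a p.2 p.1 n)|)) : ℝ) ≤ X * M * (4 / e ^ 2 * F) := by
    intro s hs
    refine (cheb (Icc (-(X : ℤ)) X) (Ioc b₀ (b₀ + M)) (fun c b => ∑ n ∈ Ioc m (m + H), fz w z (s * qv a b c n))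
      _ _ hlam1p (hm s hs)).trans (le_of_eq ?_)
    field_simp
    ring
  have h4 := card_or _ _ _ _ _ (cff 1 (Or.inl rfl)) (cff (-1) (Or.inr rfl))
  refine le_trans (le_of_eq ?_) (h4.trans (le_of_eq ?_))
  · congr 2
    ext p
    simp only [mem_filter, bad2]
  · ring

/-- `S_EQ` with one exceptional set for all lengths -/
def S_EQM : Prop := ∀ ε : ℝ, 0 < ε → ∃ T : ℝ, 0 < T ∧ ∀ (ρ : ℝ) (C : ℕ), 0 < ρ → ∃ B X₀ : ℕ, ∀ X : ℕ, X₀ ≤ X →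
  ∀ (b₀ : ℤ) (a M m : ℕ), 1 ≤ a → (a : ℝ) ≤ (X : ℝ) ^ (1 - ρ) → (X : ℝ) ^ (1 / 3 : ℝ) * Real.log X ^ B ≤ M →
  (|(b₀ : ℝ)| + M) ^ 2 ≤ a * X * Real.log X ^ C →
  ∃ Bad ⊆ Icc (-(X : ℤ)) X ×ˢ Ioc b₀ (b₀ + M), (#Bad : ℝ) ≤ ε * (X * M) ∧
    ∀ c ∈ Icc (-(X : ℤ)) X, ∀ b ∈ Ioc b₀ (b₀ + M), (c, b) ∉ Bad → Loc a b c →
      ¬ IsSquare (b ^ 2 - 4 * a * c) ∧ ∃ h : ℝ, 0 < h ∧ Tendsto (fun N : ℕ => CF a b c N) atTop (𝓝 h) ∧
        ∀ H : ℕ, T * Real.log X ≤ H → (a : ℝ) * (m + H) ^ 2 ≤ X * Real.log X ^ C →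
        |(P a b c m H : ℝ) - 2 * h * W a b c m H| ≤ ε * (2 * h * W a b c m H)

end Run7.h285.Q
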