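import Pool.Agent.Run7.h285.Q.EQMa

/-!
# Project CRQ: all scales at once, one pair
-/

set_option autoImplicit false

namespace Run7.h285.Q

open Finset Filter Topology
open Pool.Agent.H373R2.T7 (pz Vz lamz mem_pz Vz_ge Vz_inv_le Vz_le_one Vz_inv_small)
open Pool.Agent.TH892.SW (ff ffn wt wt_nonneg wt_le)
open Pool.Agent.TH892.OW (fz lz evt_ll)
open Run7.h285.X (scal scal_ge scal_lt all_scales)
open Pool.Agent.W468.ConjF (CF)

lemma hN1_ar (l e V : ℝ) (G : ℕ) (hl : 1 ≤ l) (he : 0 < e) (hV : V ≤ l) (h : 3 / e ≤ l) :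
    3 * ((G : ℝ) / l ^ 4) * V ≤ e * (G / l) := by
  have hl0 : 0 < l := by linarith
  rw [div_le_iff₀ he] at h
  have h5 : l ≤ l ^ 2 := le_self_pow₀ hl (by norm_num)
  have h6 : 3 ≤ e * l ^ 2 := by
    have := mul_le_mul_of_nonneg_left h5 he.le
    linarith
  calc 3 * ((G : ℝ) / l ^ 4) * V ≤ 3 * ((G : ℝ) / l ^ 4) * l := mul_le_mul_of_nonneg_left hV (by positivity)
    _ = 3 * ((G : ℝ) / l ^ 3) := by field_simp
    _ ≤ (e * l ^ 2) * ((G : ℝ) / l ^ 3) := mul_le_mul_of_nonneg_right h6 (by positivity)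
    _ = e * ((G : ℝ) / l) := by field_simp

/-- one pair, all scales -/
theorem pair_all (w z u D : ℕ) (hw : 2 ≤ w) (hz : 2 ≤ z) (a b c : ℤ) (m HD : ℕ) (l h δ0 e κ V V' ε lam T : ℝ)
    (hl : 10000 ≤ l) (he : e = ε / 2400) (hε : 0 < ε) (hε1 : ε ≤ 1) (hh : 0 < h) (hδ : 0 < δ0) (hδh : δ0 ≤ 2 * h)
    (hlam : lam = 1 + ε / 10) (hT : 1 ≤ T) (hlT : 10 / ε ≤ l)
    (hlHD : l ≤ HD) (Al : ℕ → Prop) (hVz : (Vz z)⁻¹ ≤ l) (hl1 : 3 / (e * δ0) ≤ l) (hl2 : 3 / e ≤ l)
    (k12 : ∀ j, Al (scal (T * l) lam j) → (|∑ n ∈ Ioc m (m + scal (T * l) lam j), ff z (1 * qv a b c n)| ≤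
        e * δ0 * (scal (T * l) lam j / (2 * l)) ∧
      |∑ n ∈ Ioc m (m + scal (T * l) lam j), ff z (-1 * qv a b c n)| ≤ e * δ0 * (scal (T * l) lam j / (2 * l))) ∧
      (nn (qv a b c) m (scal (T * l) lam j) κ : ℝ) ≤ scal (T * l) lam j / l ^ 4)
    (hwt : ∀ G : ℕ, Al G → ∀ n ∈ Ioc m (m + G), κ ≤ ((qv a b c n).natAbs : ℝ) →
      |wt (qv a b c n).natAbs - 1 / l| ≤ e * (1 / l))
    (hV : |V - 2 * h| ≤ e * (2 * h))
    (hQ : ∀ G' : ℕ, l ≤ G' → |∑ n ∈ Ioc m (m + G'), lamz w (qv a b c n).natAbs - G' * V| ≤ e * V * G')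
    (hQz : ∀ G' : ℕ, 1 ≤ G' → u ≤ G' → |∑ n ∈ Ioc m (m + G'), lamz z (qv a b c n).natAbs - G' * V'| ≤ e * V' * G')
    (huHD : u ≤ HD) (hHDu : (HD : ℝ) ≤ l ^ D)
    (hsm : ∀ j, Al (scal (T * l) lam j) → (scal (T * l) lam j : ℝ) ≤ l ^ D →
      |∑ n ∈ Ioc m (m + scal (T * l) lam j), fz w z (1 * qv a b c n)| ≤ e * δ0 * (scal (T * l) lam j / 2) ∧
      |∑ n ∈ Ioc m (m + scal (T * l) lam j), fz w z (-1 * qv a b c n)| ≤ e * δ0 * (scal (T * l) lam j / 2))
    (hAlm : ∀ G G' : ℕ, G ≤ G' → Al G' → Al G)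
    (hlg : Al HD → |∑ n ∈ Ioc m (m + HD), fz w z (1 * qv a b c n)| ≤ e * δ0 * (HD / 2) ∧
      |∑ n ∈ Ioc m (m + HD), fz w z (-1 * qv a b c n)| ≤ e * δ0 * (HD / 2))
    (H : ℕ) (hTH : 2 * T * l ≤ H) (hAH : ∀ G : ℕ, G ≤ 2 * H → Al G) :
    |(P a b c m H : ℝ) - 2 * h * W a b c m H| ≤ ε * (2 * h * W a b c m H) := by
  have hl0 : 0 < l := by linarith
  have he0 : 0 < e := by rw [he]; positivity
  have heδ : 0 < e * δ0 := by positivity
  have he2 : 5 * e ≤ 1 / 100 := by rw [he]; linarith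
  have hlam1 : 1 < lam := by rw [hlam]; have : 0 < ε / 10 := by positivity
                             linarith
  have ht0 : 0 < T * l := by positivity
  have hlt : l ≤ T * l := by nlinarith
  have hscl : ∀ j, l ≤ (scal (T * l) lam j : ℝ) := by
    intro j
    refine le_trans ?_ (scal_ge (T * l) lam j)
    have : 1 ≤ lam ^ j := one_le_pow₀ hlam1.le
    nlinarith
  have hgood : ∀ j, scal (T * l) lam j ≤ 2 * H →
      |(P a b c m (scal (T * l) lam j) : ℝ) - 2 * h * W a b c m (scal (T * l) lam j)| ≤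
        ε / 40 * (2 * h * W a b c m (scal (T * l) lam j)) ∧
      |W a b c m (scal (T * l) lam j) - scal (T * l) lam j / l| ≤ ε / 40 * (scal (T * l) lam j / l) := by
    intro j hj
    have hA := hAH _ hj
    obtain ⟨⟨k1, k2⟩, k3⟩ := k12 j hA
    have hs := hscl j
    have hsm' := hsm j hA
    generalize scal (T * l) lam j = G at *
    have hW0 : 0 ≤ W a b c m G := by
      unfold W
      exact sum_nonneg fun _ _ => wt_nonneg _
    have h4 := good_scale w z u D hw hz (qv a b c) m G HD l (2 * h) δ0 e κ V V' (by linarith) he0 he2 (by linarith) hδ hδh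
      hs hlHD k1 k2 k3 (hN1_ar l (e * δ0) _ G (by linarith) heδ hVz hl1)
      (by
        have := hN1_ar l e 1 G (by linarith) he0 (by linarith) hl2
        rwa [mul_one] at this) (hwt G hA) hV hQ hQz huHD hsm' (by
        intro hG
        have hHDG : HD ≤ G := by
          have : (HD : ℝ) ≤ G := hHDu.trans hG.le
          exact_mod_cast this
        exact ⟨hHDG, hlg (hAlm _ _ hHDG hA)⟩)
    have h60 : 60 * e = ε / 40 := by rw [he]; ring
    have hG0 : 0 ≤ (G : ℝ) / l := by positivity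
    rw [h60] at h4
    refine ⟨h4.1, h4.2.trans (mul_le_mul_of_nonneg_right ?_ hG0)⟩
    rw [he]; linarith
  have hPm : Monotone (fun G : ℕ => (P a b c m G : ℝ)) := by
    intro G G' hGG
    have : P a b c m G ≤ P a b c m G' := by
      unfold P
      apply card_le_card
      apply filter_subset_filter
      exact Ioc_subset_Ioc le_rfl (by omega)
    show (P a b c m G : ℝ) ≤ P a b c m G'
    exact_mod_cast this
  have hWm : Monotone (fun G : ℕ => W a b c m G) := by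
    intro G G' hGG
    show W a b c m G ≤ W a b c m G'
    unfold W
    apply sum_le_sum_of_subset_of_nonneg
    · exact Ioc_subset_Ioc le_rfl (by omega)
    · intro n _ _; exact wt_nonneg _
  exact all_scales (fun G : ℕ => (P a b c m G : ℝ)) (fun G : ℕ => W a b c m G) hPm hWm (2 * h) l ε (ε / 40) lam (T * l)
    (by linarith) hl0 hε hε1 (by positivity) le_rfl hlam (by linarith) (fun j => scal (T * l) lam j ≤ 2 * H) hgood H (by
      have h5 := scal_lt (T * l) lam ht0.le (by linarith) 0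
      rw [pow_zero, mul_one] at h5
      have h6 : (scal (T * l) lam 0 : ℝ) < H + 1 := by
        have : T * l + 1 ≤ 2 * T * l := by nlinarith
        linarith
      have h7 : scal (T * l) lam 0 < H + 1 := by exact_mod_cast h6
      omega) (fun j hj => hj)

end Run7.h285.Q
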