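import Pool.Agent.Run7.h285.E3b
import Pool.Agent.Run7.h285.Q.Stm

/-!
# Project CRQ, piece EQ, first part: long windows, Chebyshev, small values, one pair
-/

set_option autoImplicit false

namespace Run7.h285.Q

open Finset Filter
open Pool.Agent.H373R2.T7 (pz Vz lamz mem_pz Vz_ge Vz_inv_le Vz_le_one Vz_inv_small)
open Pool.Agent.TH892.SW (ff ffn wt wt_nonneg wt_le flq HP)
open Pool.Agent.TH892.OW (fz lz evt_ll)
open Run7.h285.E3 (win_split near_a ff_two fz_two wt_le')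
open Pool.Agent.H442R2.EHI (evt_log_pow evt_log_ge)

/-! ### long windows -/

lemma Q2_nonneg (g : ℤ → ℝ) (s a b₀ : ℤ) (X M m H : ℕ) : 0 ≤ Q2 g s a b₀ X M m H :=
  sum_nonneg fun _ _ => sum_nonneg fun _ _ => sq_nonneg _

lemma Q2_zero (g : ℤ → ℝ) (s a b₀ : ℤ) (X M m : ℕ) : Q2 g s a b₀ X M m 0 = 0 := by
  unfold Q2
  simp

lemma Q2_cs (g : ℤ → ℝ) (s a b₀ : ℤ) (X M m H₁ J r : ℕ) :
    Q2 g s a b₀ X M m (J * H₁ + r) ≤
      ((J : ℝ) + 1) * (∑ j ∈ range J, Q2 g s a b₀ X M (m + j * H₁) H₁ + Q2 g s a b₀ X M (m + J * H₁) r) := by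
  have key : ∀ (c b : ℤ), (∑ n ∈ Ioc m (m + (J * H₁ + r)), g (s * qv a b c n)) ^ 2 ≤
      ((J : ℝ) + 1) * (∑ j ∈ range J, (∑ n ∈ Ioc (m + j * H₁) (m + j * H₁ + H₁), g (s * qv a b c n)) ^ 2 +
        (∑ n ∈ Ioc (m + J * H₁) (m + J * H₁ + r), g (s * qv a b c n)) ^ 2) := by
    intro c b
    rw [win_split]
    have h1 := sq_sum_le_card_mul_sum_sq (s := range (J + 1))
      (f := fun j => if j < J then ∑ n ∈ Ioc (m + j * H₁) (m + j * H₁ + H₁), g (s * qv a b c n) else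
        ∑ n ∈ Ioc (m + J * H₁) (m + J * H₁ + r), g (s * qv a b c n))
    rw [sum_range_succ, sum_range_succ, card_range] at h1
    have h2 : ∀ F : ℝ → ℝ, ∑ j ∈ range J, F (if j < J then ∑ n ∈ Ioc (m + j * H₁) (m + j * H₁ + H₁), g (s * qv a b c n) else
        ∑ n ∈ Ioc (m + J * H₁) (m + J * H₁ + r), g (s * qv a b c n)) =
        ∑ j ∈ range J, F (∑ n ∈ Ioc (m + j * H₁) (m + j * H₁ + H₁), g (s * qv a b c n)) := by
      intro F
      refine sum_congr rfl fun j hj => ?_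
      rw [if_pos (mem_range.1 hj)]
    have h3 := h2 (fun x => x)
    have h4 := h2 (fun x => x ^ 2)
    rw [h3, h4] at h1
    simp only [lt_irrefl, if_false] at h1
    push_cast at h1
    exact h1
  have e1 : Q2 g s a b₀ X M m (J * H₁ + r) = ∑ c ∈ Icc (-(X : ℤ)) X, ∑ b ∈ Ioc b₀ (b₀ + M),
      (∑ n ∈ Ioc m (m + (J * H₁ + r)), g (s * qv a b c n)) ^ 2 := rfl
  rw [e1]
  refine (sum_le_sum fun c _ => sum_le_sum fun b _ => key c b).trans (le_of_eq ?_)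
  simp_rw [← mul_sum, sum_add_distrib]
  congr 2
  unfold Q2
  rw [sum_comm]
  rw [sum_comm]
  refine (sum_congr rfl fun a _ => ?_).trans sum_comm
  exact sum_comm

/-- bounds for short windows give bounds for long windows -/
lemma Q2_long (g : ℤ → ℝ) (s a b₀ : ℤ) (X M H₁ : ℕ) (V W : ℝ) (hH₁ : 1 ≤ H₁) (hV : 0 ≤ V)
    (h : ∀ m r : ℕ, 1 ≤ r → r ≤ H₁ → (m : ℝ) + r ≤ W → Q2 g s a b₀ X M m r ≤ V) :
    ∀ m H : ℕ, H₁ ≤ H → (m : ℝ) + H ≤ W → Q2 g s a b₀ X M m H ≤ 4 * ((H : ℝ) / H₁) ^ 2 * V := by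
  intro m H hH hW
  obtain ⟨J, hJ⟩ : ∃ J, J = H / H₁ := ⟨_, rfl⟩
  obtain ⟨r, hr⟩ : ∃ r, r = H % H₁ := ⟨_, rfl⟩
  have hHJ : H = J * H₁ + r := by rw [hJ, hr, mul_comm]; exact (Nat.div_add_mod H H₁).symm
  have hr1 : r < H₁ := by rw [hr]; exact Nat.mod_lt _ (by omega)
  have hJ1 : 1 ≤ J := by rw [hJ]; exact Nat.div_pos hH (by omega)
  have h1 := Q2_cs g s a b₀ X M m H₁ J r
  rw [← hHJ] at h1
  refine h1.trans ?_
  have hHr : (H : ℝ) = J * H₁ + r := by exact_mod_cast hHJ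
  have hr0 : (0 : ℝ) ≤ r := Nat.cast_nonneg _
  have h2 : ∀ j ∈ range J, Q2 g s a b₀ X M (m + j * H₁) H₁ ≤ V := by
    intro j hj
    rw [mem_range] at hj
    apply h _ _ hH₁ le_rfl
    push_cast
    have : ((j : ℝ) + 1) * H₁ ≤ J * H₁ := mul_le_mul_of_nonneg_right (by exact_mod_cast hj) (Nat.cast_nonneg _)
    linarith
  have h3 : Q2 g s a b₀ X M (m + J * H₁) r ≤ V := by
    rcases Nat.eq_zero_or_pos r with h0 | h0
    · rw [h0, Q2_zero]; exact hV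
    · apply h _ _ h0 hr1.le
      push_cast
      linarith
  have h4 := sum_le_sum h2
  rw [sum_const, card_range, nsmul_eq_mul] at h4
  have hH1r : (0 : ℝ) < H₁ := by exact_mod_cast hH₁
  have hJr : (1 : ℝ) ≤ J := by exact_mod_cast hJ1
  have h5 : (J : ℝ) + 1 ≤ 2 * ((H : ℝ) / H₁) := by
    rw [mul_div_assoc', le_div_iff₀ hH1r]
    nlinarith
  calc ((J : ℝ) + 1) * (∑ j ∈ range J, Q2 g s a b₀ X M (m + j * H₁) H₁ + Q2 g s a b₀ X M (m + J * H₁) r)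
      ≤ ((J : ℝ) + 1) * (J * V + V) := mul_le_mul_of_nonneg_left (by linarith) (by linarith)
    _ = ((J : ℝ) + 1) ^ 2 * V := by ring
    _ ≤ (2 * ((H : ℝ) / H₁)) ^ 2 * V := by gcongr
    _ = _ := by ring

/-! ### Chebyshev -/

lemma cheb (A I : Finset ℤ) (F : ℤ → ℤ → ℝ) (lam S : ℝ) (hl : 0 < lam)
    (h : ∑ a ∈ A, ∑ m ∈ I, F a m ^ 2 ≤ S) :
    (#((A ×ˢ I).filter (fun p => lam < |F p.1 p.2|)) : ℝ) ≤ S / lam ^ 2 := by
  rw [le_div_iff₀ (by positivity)]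
  rw [← sum_product' (f := fun a m => F a m ^ 2)] at h
  refine le_trans ?_ h
  refine le_trans ?_ (sum_le_sum_of_subset_of_nonneg (filter_subset (fun p => lam < |F p.1 p.2|) (A ×ˢ I))
    fun p _ _ => sq_nonneg _)
  rw [← nsmul_eq_mul]
  apply card_nsmul_le_sum
  intro p hp
  rw [mem_filter] at hp
  have h1 := pow_le_pow_left₀ hl.le hp.2.le 2
  rwa [sq_abs] at h1

lemma markov (A I : Finset ℤ) (F : ℤ → ℤ → ℝ) (lam S : ℝ) (hl : 0 < lam) (hF : ∀ a m, 0 ≤ F a m)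
    (h : ∑ a ∈ A, ∑ m ∈ I, F a m ≤ S) :
    (#((A ×ˢ I).filter (fun p => lam < F p.1 p.2)) : ℝ) ≤ S / lam := by
  rw [le_div_iff₀ hl]
  rw [← sum_product' (f := fun a m => F a m)] at h
  refine le_trans ?_ h
  refine le_trans ?_ (sum_le_sum_of_subset_of_nonneg (filter_subset (fun p => lam < F p.1 p.2) (A ×ˢ I))
    fun p _ _ => hF _ _)
  rw [← nsmul_eq_mul]
  apply card_nsmul_le_sum
  intro p hp
  rw [mem_filter] at hp
  exact hp.2.le

/-! ### small values -/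

/-- the number of the `n` of the window with a small value -/
noncomputable def nn (y : ℕ → ℤ) (m H : ℕ) (κ : ℝ) : ℕ :=
  #((Ioc m (m + H)).filter (fun n : ℕ => ((y n).natAbs : ℝ) < κ))

lemma near (A : Finset ℤ) (a b₀ : ℤ) (M m H : ℕ) (κ lam : ℝ) (hκ : 0 ≤ κ) (hl : 0 < lam) :
    (#((A ×ˢ Ioc b₀ (b₀ + M)).filter (fun p => lam < (nn (qv a p.2 p.1) m H κ : ℝ))) : ℝ) ≤
      M * (H * (2 * κ + 1)) / lam := by
  apply markov A (Ioc b₀ (b₀ + M)) (fun c b => (nn (qv a b c) m H κ : ℝ)) lam _ hl (fun _ _ => Nat.cast_nonneg _)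
  rw [sum_comm]
  have h1 : ∀ b ∈ Ioc b₀ (b₀ + M), ∑ c ∈ A, (nn (qv a b c) m H κ : ℝ) ≤ H * (2 * κ + 1) := by
    intro b _
    have e1 : ∑ c ∈ A, (nn (qv a b c) m H κ : ℝ) =
        ∑ n ∈ Ioc m (m + H), (#(A.filter (fun c : ℤ => (((a * (n : ℤ) ^ 2 + b * n) + c).natAbs : ℝ) < κ)) : ℝ) := by
      unfold nn qv
      simp_rw [card_filter]
      push_cast
      exact sum_comm
    rw [e1]
    refine (sum_le_sum fun n _ => near_a A _ κ hκ).trans (le_of_eq ?_)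
    rw [sum_const, Nat.card_Ioc, nsmul_eq_mul, Nat.add_sub_cancel_left]
  refine (sum_le_sum h1).trans (le_of_eq ?_)
  rw [sum_const, Int.card_Ioc, nsmul_eq_mul]
  congr 1
  norm_num

/-! ### one pair -/

/-- the weights -/
lemma sum_near (y : ℕ → ℤ) (m H : ℕ) (κ l ε c0 : ℝ) (c : ℕ → ℝ) (hc : ∀ n, 0 ≤ c n) (hc0 : ∀ n, c n ≤ c0) (hl : 1 ≤ l)
    (hε : 0 ≤ ε) (hwt : ∀ n ∈ Ioc m (m + H), κ ≤ ((y n).natAbs : ℝ) →
      |wt (y n).natAbs - 1 / l| ≤ ε * (1 / l)) :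
    |∑ n ∈ Ioc m (m + H), c n * wt (y n).natAbs - 1 / l * ∑ n ∈ Ioc m (m + H), c n| ≤
      ε * (1 / l) * ∑ n ∈ Ioc m (m + H), c n + 3 * (nn y m H κ : ℝ) * c0 := by
  have hl0 : 0 < l := by linarith
  have e1 : ε * (1 / l) * ∑ n ∈ Ioc m (m + H), c n + 3 * (nn y m H κ : ℝ) * c0 =
      ∑ n ∈ Ioc m (m + H), (ε * (1 / l) * c n + 3 * c0 * (if ((y n).natAbs : ℝ) < κ then 1 else 0)) := by
    rw [sum_add_distrib, ← mul_sum, ← mul_sum, sum_boole]
    unfold nn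
    ring
  rw [e1, mul_sum, ← sum_sub_distrib]
  refine (abs_sum_le_sum_abs _ _).trans (sum_le_sum fun n hn => ?_)
  have e2 : c n * wt (y n).natAbs - 1 / l * c n = c n * (wt (y n).natAbs - 1 / l) := by ring
  rw [e2, abs_mul, abs_of_nonneg (hc n)]
  have hc00 : 0 ≤ c0 := (hc n).trans (hc0 n)
  split_ifs with h
  · have h1 : |wt (y n).natAbs - 1 / l| ≤ 3 := by
      have h2 := wt_nonneg (y n).natAbs
      have h3 := wt_le' (y n).natAbs
      have h4 : 1 / l ≤ 1 := by rw [div_le_one hl0]; exact hl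
      have h5 : 0 ≤ 1 / l := by positivity
      rw [abs_le]; constructor <;> linarith
    have h2 : c n * |wt (y n).natAbs - 1 / l| ≤ c0 * 3 :=
      mul_le_mul (hc0 n) h1 (abs_nonneg _) hc00
    have h3 : 0 ≤ ε * (1 / l) * c n := by have := hc n; positivity
    linarith
  · have h1 := mul_le_mul_of_nonneg_left (hwt n hn (not_lt.1 h)) (hc n)
    linarith

/-- one pair -/
lemma comb (w z : ℕ) (hw : 2 ≤ w) (hz : 2 ≤ z) (y : ℕ → ℤ) (m H : ℕ) (l h δ0 ε κ N V : ℝ) (hl : 1 ≤ l) (hε : 0 < ε)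
    (hε1 : ε ≤ 1 / 100) (hh : 0 < h) (hδh : δ0 ≤ h)
    (hG1 : |∑ n ∈ Ioc m (m + H), ff z (1 * y n)| ≤ ε * δ0 * (H / (2 * l)))
    (hG2 : |∑ n ∈ Ioc m (m + H), ff z (-1 * y n)| ≤ ε * δ0 * (H / (2 * l)))
    (hF1 : |∑ n ∈ Ioc m (m + H), fz w z (1 * y n)| ≤ ε * δ0 * (H / 2))
    (hF2 : |∑ n ∈ Ioc m (m + H), fz w z (-1 * y n)| ≤ ε * δ0 * (H / 2))
    (hN : (nn y m H κ : ℝ) ≤ N) (hN1 : 3 * N * (Vz z)⁻¹ ≤ ε * δ0 * (H / l)) (hN2 : 3 * N ≤ ε * (H / l))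
    (hwt : ∀ n ∈ Ioc m (m + H), κ ≤ ((y n).natAbs : ℝ) →
      |wt (y n).natAbs - 1 / l| ≤ ε * (1 / l))
    (hV : |V - h| ≤ ε * h)
    (hQ : |∑ n ∈ Ioc m (m + H), lamz w (y n).natAbs - H * V| ≤ ε * V * H) :
    |(#((Ioc m (m + H)).filter (fun n : ℕ => (y n).natAbs.Prime)) : ℝ) - h * ∑ n ∈ Ioc m (m + H), wt (y n).natAbs| ≤
      12 * ε * (h * ∑ n ∈ Ioc m (m + H), wt (y n).natAbs) := by
  have hl0 : 0 < l := by linarith
  have hH0 : (0 : ℝ) ≤ H := Nat.cast_nonneg _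
  obtain ⟨Qz, hQz⟩ : ∃ Qz, Qz = ∑ n ∈ Ioc m (m + H), lamz z (y n).natAbs := ⟨_, rfl⟩
  obtain ⟨Qw, hQw⟩ : ∃ Qw, Qw = ∑ n ∈ Ioc m (m + H), lamz w (y n).natAbs := ⟨_, rfl⟩
  obtain ⟨Z, hZ⟩ : ∃ Z, Z = ∑ n ∈ Ioc m (m + H), lamz z (y n).natAbs * wt (y n).natAbs := ⟨_, rfl⟩
  have e1 : (#((Ioc m (m + H)).filter (fun n : ℕ => (y n).natAbs.Prime)) : ℝ) = (∑ n ∈ Ioc m (m + H), ff z (1 * y n) +
      ∑ n ∈ Ioc m (m + H), ff z (-1 * y n)) + Z := by
    rw [hZ, ← sum_add_distrib, ← sum_add_distrib]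
    rw [← sum_boole]
    refine sum_congr rfl fun n _ => ?_
    rw [ff_two]; ring
  have e2 : (∑ n ∈ Ioc m (m + H), fz w z (1 * y n) +
      ∑ n ∈ Ioc m (m + H), fz w z (-1 * y n)) = Qz - Qw := by
    rw [hQz, hQw, ← sum_add_distrib, ← sum_sub_distrib]
    refine sum_congr rfl fun n _ => ?_
    rw [fz_two w z hw hz]
  have e3 := sum_near y m H κ l ε (Vz z)⁻¹ (fun n => lamz z (y n).natAbs)
    (fun n => Pool.Agent.TH892.SW.lamz_nonneg z _ (by omega))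
    (fun n => Pool.Agent.TH892.SW.lamz_le z _ (by omega)) hl hε.le hwt
  have e4 := sum_near y m H κ l ε 1 (fun _ => 1) (fun _ => zero_le_one) (fun _ => le_rfl) hl hε.le hwt
  rw [← hQz, ← hZ] at e3
  have e5 : ∑ n ∈ Ioc m (m + H), (1 : ℝ) = H := by
    rw [sum_const, Nat.card_Ioc, nsmul_eq_mul, mul_one, Nat.add_sub_cancel_left]
  have e6 : ∑ n ∈ Ioc m (m + H), 1 * wt (y n).natAbs = ∑ n ∈ Ioc m (m + H), wt (y n).natAbs := by
    exact sum_congr rfl fun n _ => one_mul _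
  rw [e5, e6] at e4
  rw [← hQw] at hQ
  have hVz0 : 0 < (Vz z)⁻¹ := inv_pos.2 (Pool.Agent.TH892.OW.Vz_pos z)
  have hN3 : 3 * (nn y m H κ : ℝ) * (Vz z)⁻¹ ≤ ε * δ0 * (H / l) :=
    le_trans (mul_le_mul_of_nonneg_right (by linarith) hVz0.le) hN1
  have hN4 : 3 * (nn y m H κ : ℝ) * 1 ≤ ε * (H / l) := by linarith
  rw [e1]
  generalize ∑ n ∈ Ioc m (m + H), wt (y n).natAbs = W at *
  generalize ∑ n ∈ Ioc m (m + H), ff z (1 * y n) = G1 at *
  generalize ∑ n ∈ Ioc m (m + H), ff z (-1 * y n) = G2 at *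
  generalize ∑ n ∈ Ioc m (m + H), fz w z (1 * y n) = F1 at *
  generalize ∑ n ∈ Ioc m (m + H), fz w z (-1 * y n) = F2 at *
  rw [show G1 + G2 + Z - h * W = (G1 + G2) + (Z - h * W) by ring]
  clear e1 hZ hQz hQw e5 e6 hwt hN1 hN2
  set q := (H : ℝ) / l with hq
  have hq0 : 0 ≤ q := by rw [hq]; positivity
  have hHq : (H : ℝ) = q * l := by rw [hq]; field_simp
  have hhq : 0 ≤ h * q := by positivity
  have hV2 := abs_le.1 hV
  have hεh : ε * h ≤ 1 / 100 * h := mul_le_mul_of_nonneg_right hε1 hh.le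
  have hV3 : V ≤ 101 / 100 * h := by linarith
  have hδq : ε * δ0 * q ≤ ε * (h * q) := by
    have : ε * δ0 * q ≤ ε * h * q := by gcongr
    linarith
  have g1 : |G1 + G2| ≤ ε * (h * q) := by
    have h1 := abs_add_le G1 G2
    have h2 : ε * δ0 * (H / (2 * l)) = ε * δ0 * q / 2 := by rw [hq]; field_simp
    rw [h2] at hG1 hG2
    linarith
  have g2 : |Qz - Qw| ≤ ε * (h * q) * l := by
    have h1 := abs_add_le F1 F2
    rw [e2] at h1
    have h2 : ε * δ0 * ((H : ℝ) / 2) = ε * δ0 * q * l / 2 := by rw [hHq]; ring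
    rw [h2] at hF1 hF2
    have h3 := mul_le_mul_of_nonneg_right hδq hl0.le
    linarith
  have g3 : |Qz - h * q * l| ≤ 4 * ε * (h * q) * l := by
    have h1 : Qz - h * q * l = (Qz - Qw) + (Qw - H * V) + (V - h) * H := by rw [hHq]; ring
    rw [h1]
    refine (abs_add_le _ _).trans ?_
    have a2 := abs_add_le (Qz - Qw) (Qw - H * V)
    have a3 : |(V - h) * H| ≤ ε * h * H := by
      rw [abs_mul, abs_of_nonneg hH0]
      exact mul_le_mul_of_nonneg_right hV hH0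
    have a4 : ε * V * H ≤ ε * (101 / 100 * h) * H := by gcongr
    have a5 : ε * h * H = ε * (h * q) * l := by rw [hHq]; ring
    have a6 : ε * (101 / 100 * h) * H = 101 / 100 * (ε * (h * q) * l) := by rw [hHq]; ring
    have a7 : 0 ≤ ε * (h * q) * l := by positivity
    rw [a5] at a3
    rw [a6] at a4
    linarith
  have g4 : Qz ≤ 104 / 100 * (h * q * l) := by
    have h1 := (abs_le.1 g3).2
    have h2 : 4 * ε * (h * q) * l ≤ 4 * (1 / 100) * (h * q) * l := by gcongr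
    linarith
  have g5 : |Z - 1 / l * Qz| ≤ 205 / 100 * (ε * (h * q)) := by
    have h1 : ε * (1 / l) * Qz ≤ ε * (1 / l) * (104 / 100 * (h * q * l)) := by gcongr
    have h2 : ε * (1 / l) * (104 / 100 * (h * q * l)) = 104 / 100 * (ε * (h * q)) := by field_simp
    have h3 : 0 ≤ ε * (h * q) := by positivity
    linarith
  have g6 : |1 / l * Qz - h * q| ≤ 4 * (ε * (h * q)) := by
    have h1 : 1 / l * Qz - h * q = 1 / l * (Qz - h * q * l) := by field_simp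
    rw [h1, abs_mul, abs_of_pos (by positivity)]
    calc 1 / l * |Qz - h * q * l| ≤ 1 / l * (4 * ε * (h * q) * l) := by gcongr
      _ = _ := by field_simp
  have g7 : |W - q| ≤ 2 * ε * q := by
    have h1 : 1 / l * (H : ℝ) = q := by rw [hq]; ring
    have h2 : ε * (1 / l) * (H : ℝ) = ε * q := by rw [hq]; ring
    rw [h1, h2] at e4
    linarith
  have g8 : |h * q - h * W| ≤ 2 * (ε * (h * q)) := by
    have h1 : h * q - h * W = -(h * (W - q)) := by ring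
    rw [h1, abs_neg, abs_mul, abs_of_pos hh]
    calc h * |W - q| ≤ h * (2 * ε * q) := by gcongr
      _ = _ := by ring
  have g9 : |(G1 + G2) + (Z - h * W)| ≤ 10 * (ε * (h * q)) := by
    have h1 : (G1 + G2) + (Z - h * W) = (G1 + G2) + (Z - 1 / l * Qz) + (1 / l * Qz - h * q) + (h * q - h * W) := by ring
    rw [h1]
    have b1 := abs_add_le ((G1 + G2) + (Z - 1 / l * Qz) + (1 / l * Qz - h * q)) (h * q - h * W)
    have b2 := abs_add_le ((G1 + G2) + (Z - 1 / l * Qz)) (1 / l * Qz - h * q)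
    have b3 := abs_add_le (G1 + G2) (Z - 1 / l * Qz)
    have h3 : 0 ≤ ε * (h * q) := by positivity
    linarith
  have g10 : 98 / 100 * (h * q) ≤ h * W := by
    have h1 := (abs_le.1 g8).2
    have h2 : 2 * (ε * (h * q)) ≤ 2 * (1 / 100 * (h * q)) := by gcongr
    linarith
  refine g9.trans ?_
  have h1 : 12 * ε * (98 / 100 * (h * q)) ≤ 12 * ε * (h * W) := by gcongr
  have h3 : 0 ≤ ε * (h * q) := by positivity
  linarith

end Run7.h285.Q
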